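import Pool.Agent.TH850.UV.NVh
import Pool.Agent.H382R2.Final0

/-! # Pairs of zeros in long windows: the counting function -/

set_option autoImplicit false

open MeasureTheory Set Filter Topology

namespace Pool.Agent.Q212.PW

open SG (NZ)

lemma cnt_NZ {t h : ℝ} (ht : 0 < t) :
    (Pool.Agent.TH850.UV.cnt t h : ℝ) = if 0 ≤ h then (NZ (t + h) : ℝ) - NZ t else 0 := by
  classical
  by_cases hh : 0 ≤ h
  · rw [if_pos hh]
    set F := (SG.ZS_finite (t + h)).toFinset with hF
    have hset : {s : ℂ | s ∈ Pool.Agent.TH850.UR.zeros ∧ (t < s.im ∧ s.im ≤ t + h)} =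
        (F.filter fun s => t < s.im : Finset ℂ) := by
      ext s
      simp only [mem_ofPred_eq, Finset.coe_filter, hF, Set.Finite.mem_toFinset,
        Pool.Agent.TH850.UR.zeros, SG.ZS]
      constructor
      · rintro ⟨⟨a1, a2, a3⟩, a4, a5⟩
        exact ⟨⟨a1, a2, a3, ht.trans a4, a5⟩, a4⟩
      · rintro ⟨⟨a1, a2, a3, _, a5⟩, a4⟩
        exact ⟨⟨a1, a2, a3⟩, a4, a5⟩
    have h1 : Pool.Agent.TH850.UV.cnt t h = ∑ s ∈ F.filter (fun s => t < s.im), SG.zmult s := by
      unfold Pool.Agent.TH850.UV.cnt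
      rw [hset]
      exact finsum_mem_coe_finset _ _
    have h2 : NZ t = ∑ s ∈ F.filter (fun s => ¬ t < s.im), SG.zmult s := by
      rw [SG.NZ_eq]
      congr 1
      ext s
      rw [Finset.mem_filter, Set.Finite.mem_toFinset, hF, Set.Finite.mem_toFinset]
      constructor
      · rintro ⟨a1, a2, a3, a4, a5⟩
        exact ⟨⟨a1, a2, a3, a4, by linarith⟩, not_lt.mpr a5⟩
      · rintro ⟨⟨a1, a2, a3, a4, a5⟩, a6⟩
        exact ⟨a1, a2, a3, a4, not_lt.mp a6⟩
    have h3 : NZ (t + h) = Pool.Agent.TH850.UV.cnt t h + NZ t := by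
      rw [h1, h2, SG.NZ_eq, Finset.sum_filter_add_sum_filter_not]
    rw [h3]
    push_cast
    ring
  · rw [if_neg hh]
    have hset : {s : ℂ | s ∈ Pool.Agent.TH850.UR.zeros ∧ (t < s.im ∧ s.im ≤ t + h)} = ∅ := by
      ext s
      simp only [mem_ofPred_eq, mem_empty_iff_false, iff_false]
      rintro ⟨_, a1, a2⟩
      linarith
    unfold Pool.Agent.TH850.UV.cnt
    rw [hset]
    simp

lemma NZr_mono : Monotone fun t : ℝ => (NZ t : ℝ) := fun _ _ h => Nat.cast_le.2 (SG.NZ_mono h)

lemma NZ_split {a b : ℝ} (ha : 1 ≤ a) (hab : a ≤ b) :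
    (NZ b : ℝ) = NZ a + H370.NN riemannZeta a b := by
  apply le_antisymm
  · exact_mod_cast SG.NZ_le_add a b ha
  · have hfin := H370.zset_finite H370.good_zeta a b ha
    have e : H370.NN riemannZeta a b = ∑ s ∈ hfin.toFinset, H370.mult riemannZeta s := by
      unfold H370.NN
      exact finsum_mem_eq_finite_toFinset_sum _ hfin
    have h1 := SG.NZ_add_le a b hab hfin.toFinset (by
      intro s hs
      rw [Set.Finite.mem_toFinset] at hs
      obtain ⟨a1, a2, a3, a4, a5⟩ := hs
      exact ⟨⟨a5, a1, a2, by linarith, a4⟩, a3⟩)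
    rw [e]
    exact_mod_cast h1

/-- Riemann - von Mangoldt with error `O(y)` -/
lemma NZ_rvm : ∃ C : ℝ, 0 < C ∧ ∀ y : ℝ, 1 ≤ y →
    |(NZ y : ℝ) - y * Real.log y / (2 * Real.pi)| ≤ C * y := by
  obtain ⟨C, T1, hC, hT1, h⟩ := H370.nn_asymp H370.good_zeta
  have hpi := Real.pi_gt_three
  obtain ⟨K, hK⟩ : ∃ K : ℝ, K = C + 1 + NZ T1 + Real.log T1 := ⟨_, rfl⟩
  have hlT1 : 0 ≤ Real.log T1 := Real.log_nonneg (by linarith)
  have hN : (0 : ℝ) ≤ NZ T1 := Nat.cast_nonneg _
  have hl2 : Real.log 2 < 1 := by have := Real.log_two_lt_d9; linarith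
  have hl2' : 0 < Real.log 2 := Real.log_pos (by norm_num)
  refine ⟨K, by rw [hK]; linarith, ?_⟩
  have key : ∀ n : ℕ, ∀ y : ℝ, 1 ≤ y → y ≤ T1 * 2 ^ n →
      |(NZ y : ℝ) - y * Real.log y / (2 * Real.pi)| ≤ K * y := by
    intro n
    induction n with
    | zero =>
      intro y hy hyT
      rw [pow_zero, mul_one] at hyT
      have h1 : (0 : ℝ) ≤ NZ y := Nat.cast_nonneg _
      have h2 : (NZ y : ℝ) ≤ NZ T1 := NZr_mono hyT
      have h3 : 0 ≤ Real.log y := Real.log_nonneg hy
      have h4 : Real.log y ≤ Real.log T1 := Real.log_le_log (by linarith) hyT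
      have h5 : y * Real.log y / (2 * Real.pi) ≤ y * Real.log T1 := by
        rw [div_le_iff₀ (by positivity)]
        have h6 : y * Real.log y ≤ y * Real.log T1 := mul_le_mul_of_nonneg_left h4 (by linarith)
        have h7 : 0 ≤ y * Real.log T1 := by positivity
        nlinarith
      have h8 : 0 ≤ y * Real.log y / (2 * Real.pi) := by positivity
      have h9 : (NZ T1 : ℝ) ≤ NZ T1 * y := le_mul_of_one_le_right hN hy
      rw [hK, abs_le]
      constructor <;> nlinarith
    | succ n ih =>
      intro y hy hyT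
      rcases le_or_gt y (T1 * 2 ^ n) with h1 | h1
      · exact ih y hy h1
      have hp : (1 : ℝ) ≤ 2 ^ n := one_le_pow₀ (by norm_num)
      have hyT1 : T1 ≤ y := by nlinarith
      rcases le_or_gt T1 (y / 2) with h2 | h2
      · have h3 := ih (y / 2) (by linarith) (by rw [pow_succ] at hyT; linarith)
        have h4 := h (y / 2) h2 (y / 2) y le_rfl (by linarith) (by linarith) (by linarith)
        have h5 := NZ_split (a := y / 2) (b := y) (by linarith) (by linarith)
        have h6 : Real.log (y / 2) = Real.log y - Real.log 2 :=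
          Real.log_div (by linarith) (by norm_num)
        rw [h6] at h3 h4
        have e1 : y * Real.log y / (2 * Real.pi) = y / 2 * (Real.log y - Real.log 2) / (2 * Real.pi) +
            y / 2 * (Real.log y - Real.log 2) / (2 * Real.pi) + y * Real.log 2 / (2 * Real.pi) := by
          field_simp; ring
        have e2 : y * Real.log 2 / (2 * Real.pi) ≤ y / 2 := by
          rw [div_le_iff₀ (by positivity)]
          nlinarith
        have e3 : 0 ≤ y * Real.log 2 / (2 * Real.pi) := by positivity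
        have a1 := abs_le.1 h3
        have a2 := abs_le.1 h4
        have hKC : C + 1 ≤ K := by rw [hK]; linarith
        have hy2 : (C + 1) * (y / 2) ≤ K * (y / 2) := mul_le_mul_of_nonneg_right hKC (by linarith)
        rw [h5, e1, abs_le]
        constructor <;> nlinarith [a1.1, a1.2, a2.1, a2.2]
      · -- `T1 ≤ y < 2 T1`
        have h3 := h T1 le_rfl T1 (2 * T1) le_rfl (by linarith) (by linarith) le_rfl
        have h4 := NZ_split (a := T1) (b := 2 * T1) (by linarith) (by linarith)
        have h5 : (NZ y : ℝ) ≤ NZ (2 * T1) := NZr_mono (by linarith)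
        have h6 : (0 : ℝ) ≤ NZ y := Nat.cast_nonneg _
        have a1 := (abs_le.1 h3).2
        have h7 : T1 * Real.log T1 / (2 * Real.pi) ≤ T1 * Real.log T1 := by
          rw [div_le_iff₀ (by positivity)]
          have : 0 ≤ T1 * Real.log T1 := by positivity
          nlinarith
        have h8 : Real.log y ≤ Real.log T1 + Real.log 2 := by
          rw [← Real.log_mul (by linarith) (by norm_num)]
          exact Real.log_le_log (by linarith) (by linarith)
        have h9 : 0 ≤ Real.log y := Real.log_nonneg hy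
        have h10 : y * Real.log y / (2 * Real.pi) ≤ y * (Real.log T1 + 1) := by
          rw [div_le_iff₀ (by positivity)]
          have c1 : y * Real.log y ≤ y * (Real.log T1 + 1) :=
            mul_le_mul_of_nonneg_left (by linarith) (by linarith)
          have c2 : 0 ≤ y * (Real.log T1 + 1) := by positivity
          nlinarith
        have h11 : 0 ≤ y * Real.log y / (2 * Real.pi) := by positivity
        have h12 : (NZ y : ℝ) ≤ NZ T1 * y + C * y + Real.log T1 * y := by
          have c1 : (NZ T1 : ℝ) ≤ NZ T1 * y := le_mul_of_one_le_right hN hy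
          have c2 : C * T1 ≤ C * y := mul_le_mul_of_nonneg_left hyT1 hC.le
          have c3 : T1 * Real.log T1 ≤ Real.log T1 * y := by
            rw [mul_comm]; exact mul_le_mul_of_nonneg_left hyT1 hlT1
          linarith
        have hCy : 0 ≤ C * y := by positivity
        have hNy : 0 ≤ (NZ T1 : ℝ) * y := by positivity
        rw [hK, abs_le]
        constructor <;> nlinarith
  intro y hy
  obtain ⟨n, hn⟩ := pow_unbounded_of_one_lt y (show (1 : ℝ) < 2 by norm_num)
  refine key n y hy ?_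
  have : (0 : ℝ) < 2 ^ n := by positivity
  nlinarith

lemma NZ_lin : ∃ C : ℝ, 0 < C ∧ ∀ T : ℝ, 3 ≤ T → ∀ y : ℝ, 0 ≤ y → y ≤ 2 * T →
    |(NZ y : ℝ) - y * Real.log T / (2 * Real.pi)| ≤ C * T := by
  obtain ⟨C, hC, h⟩ := NZ_rvm
  have hpi := Real.pi_gt_three
  have hN1 : (0 : ℝ) ≤ NZ 1 := Nat.cast_nonneg _
  refine ⟨2 * C + 1 + NZ 1, by positivity, fun T hT y hy hyT => ?_⟩
  have hlT : 0 ≤ Real.log T := Real.log_nonneg (by linarith)
  have hlT1 : Real.log T ≤ T := (Real.log_le_sub_one_of_pos (by linarith)).trans (by linarith)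
  have h2pi : 1 ≤ 2 * Real.pi := by linarith
  rcases le_or_gt 1 y with h1 | h1
  · have h2 := abs_le.1 (h y h1)
    have h3 : |y * Real.log y - y * Real.log T| ≤ 2 * T := by
      rw [← mul_sub, ← Real.log_div (by linarith) (by linarith), abs_mul, abs_of_nonneg hy]
      rcases le_total y T with h4 | h4
      · have h5 : Real.log (y / T) ≤ 0 :=
          Real.log_nonpos (by positivity) ((div_le_one (by linarith)).2 h4)
        rw [abs_of_nonpos h5]
        have h6 : -Real.log (y / T) = Real.log (T / y) := by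
          rw [← Real.log_inv, inv_div]
        rw [h6]
        have h7 : Real.log (T / y) ≤ T / y := by
          have := Real.log_le_sub_one_of_pos (show 0 < T / y by positivity)
          linarith
        calc y * Real.log (T / y) ≤ y * (T / y) := mul_le_mul_of_nonneg_left h7 hy
          _ = T := by field_simp
          _ ≤ 2 * T := by linarith
      · have h5 : 0 ≤ Real.log (y / T) := Real.log_nonneg (by rwa [le_div_iff₀ (by linarith), one_mul])
        rw [abs_of_nonneg h5]
        have h6 : Real.log (y / T) ≤ y / T - 1 := Real.log_le_sub_one_of_pos (by positivity)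
        have h7 : y / T ≤ 2 := by rwa [div_le_iff₀ (by linarith)]
        nlinarith
    have h4 : |y * Real.log y / (2 * Real.pi) - y * Real.log T / (2 * Real.pi)| ≤ T := by
      rw [← sub_div, abs_div, abs_of_pos (show (0 : ℝ) < 2 * Real.pi by linarith),
        div_le_iff₀ (by linarith)]
      nlinarith
    have h5 := abs_le.1 h4
    have h6 : C * y ≤ 2 * C * T := by nlinarith
    have h7 : (NZ 1 : ℝ) * T ≥ 0 := by positivity
    rw [abs_le]
    constructor <;> nlinarith [h2.1, h2.2, h5.1, h5.2]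
  · have h2 : (NZ y : ℝ) ≤ NZ 1 := NZr_mono h1.le
    have h3 : (0 : ℝ) ≤ NZ y := Nat.cast_nonneg _
    have h4 : y * Real.log T / (2 * Real.pi) ≤ T := by
      rw [div_le_iff₀ (by linarith)]
      nlinarith
    have h5 : 0 ≤ y * Real.log T / (2 * Real.pi) := by positivity
    have h6 : (NZ 1 : ℝ) ≤ NZ 1 * T := le_mul_of_one_le_right hN1 (by linarith)
    rw [abs_le]
    constructor <;> nlinarith

/-- the number of zeros in `(t, t + h]` -/
noncomputable def dn (h t : ℝ) : ℝ := (NZ (t + h) : ℝ) - NZ t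

lemma dn_nonneg {h : ℝ} (hh : 0 ≤ h) (t : ℝ) : 0 ≤ dn h t := by
  unfold dn
  have : (NZ t : ℝ) ≤ NZ (t + h) := NZr_mono (by linarith)
  linarith

lemma dn_mono {h h' : ℝ} (hh : h ≤ h') (t : ℝ) : dn h t ≤ dn h' t := by
  unfold dn
  have : (NZ (t + h) : ℝ) ≤ NZ (t + h') := NZr_mono (by linarith)
  linarith

lemma dn_add (h h' t : ℝ) : dn (h + h') t = dn h t + dn h' (t + h) := by
  unfold dn
  rw [add_assoc]
  ring

lemma dn_meas (h : ℝ) : Measurable (dn h) :=
  (NZr_mono.measurable.comp (measurable_id.add_const _)).sub NZr_mono.measurable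

lemma dn_bdd (h : ℝ) (a b : ℝ) : ∃ K : ℝ, ∀ t ∈ uIcc a b, |dn h t| ≤ K := by
  refine ⟨(NZ (|a| + |b| + |h|) : ℝ), fun t ht => ?_⟩
  have h1 : t ≤ |a| + |b| := by
    have : t ≤ max a b := ht.2
    refine this.trans (max_le ?_ ?_)
    · linarith [le_abs_self a, abs_nonneg b]
    · linarith [le_abs_self b, abs_nonneg a]
  have h2 : (NZ t : ℝ) ≤ (NZ (|a| + |b| + |h|) : ℝ) := NZr_mono (by linarith [abs_nonneg h])
  have h3 : (NZ (t + h) : ℝ) ≤ (NZ (|a| + |b| + |h|) : ℝ) := NZr_mono (by linarith [le_abs_self h])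
  have h4 : (0 : ℝ) ≤ NZ t := Nat.cast_nonneg _
  have h5 : (0 : ℝ) ≤ NZ (t + h) := Nat.cast_nonneg _
  unfold dn
  rw [abs_le]
  constructor <;> linarith

/-- interval integrability of bounded measurable functions -/
lemma ii_of {f : ℝ → ℝ} (hf : Measurable f) {a b : ℝ} (hb : ∃ K : ℝ, ∀ t ∈ uIcc a b, |f t| ≤ K) :
    IntervalIntegrable f volume a b := by
  obtain ⟨K, hK⟩ := hb
  rw [intervalIntegrable_iff]
  refine Integrable.mono' (g := fun _ => K) ?_ hf.aestronglyMeasurable ?_
  · exact integrableOn_const (by rw [Set.uIoc, Real.volume_Ioc]; exact ENNReal.ofReal_ne_top)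
  · refine (ae_restrict_iff' measurableSet_uIoc).2 (ae_of_all _ fun t ht => ?_)
    exact hK t (uIoc_subset_uIcc ht)

/-- shifted counts -/
lemma dns_bdd (h s c a b : ℝ) : ∃ K : ℝ, 0 ≤ K ∧ ∀ t ∈ uIcc a b, |dn h (t + s) - c| ≤ K := by
  obtain ⟨K, hK⟩ := dn_bdd h (a + s) (b + s)
  refine ⟨|K| + |c|, by positivity, fun t ht => ?_⟩
  have h1 : t + s ∈ uIcc (a + s) (b + s) := by
    rw [mem_uIcc] at ht ⊢
    rcases ht with ht | ht
    · left; constructor <;> linarith [ht.1, ht.2]
    · right; constructor <;> linarith [ht.1, ht.2]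
  have h2 := hK _ h1
  calc |dn h (t + s) - c| ≤ |dn h (t + s)| + |c| := abs_sub _ _
    _ ≤ |K| + |c| := by linarith [le_abs_self K]

lemma dns_meas (h s c : ℝ) : Measurable fun t => dn h (t + s) - c :=
  ((dn_meas h).comp (measurable_id.add_const s)).sub_const c

lemma ii_one (h s c a b : ℝ) : IntervalIntegrable (fun t => dn h (t + s) - c) volume a b := by
  obtain ⟨K, _, hK⟩ := dns_bdd h s c a b
  exact ii_of (dns_meas h s c) ⟨K, hK⟩

lemma ii_two (h s c h' s' c' a b : ℝ) :
    IntervalIntegrable (fun t => (dn h (t + s) - c) * (dn h' (t + s') - c')) volume a b := by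
  obtain ⟨K, hK0, hK⟩ := dns_bdd h s c a b
  obtain ⟨K', hK0', hK'⟩ := dns_bdd h' s' c' a b
  refine ii_of ((dns_meas h s c).mul (dns_meas h' s' c')) ⟨K * K', fun t ht => ?_⟩
  change |(dn h (t + s) - c) * (dn h' (t + s') - c')| ≤ K * K'
  rw [abs_mul]
  exact mul_le_mul (hK t ht) (hK' t ht) (abs_nonneg _) hK0

lemma ii_sq (h s c a b : ℝ) : IntervalIntegrable (fun t => (dn h (t + s) - c) ^ 2) volume a b := by
  simp_rw [sq]
  exact ii_two h s c h s c a b

end Pool.Agent.Q212.PW
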