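import Pool.Agent.Q212.PW.Var

/-! # Pairs of zeros in long windows: correlations of the counts in two windows -/

set_option autoImplicit false

open MeasureTheory Set Filter Topology

namespace Pool.Agent.Q212.PW

open SG (NZ)

lemma loc_crude : ∃ C : ℝ, 0 < C ∧ ∀ T : ℝ, 10 ≤ T → ∀ t h : ℝ, T / 2 ≤ t → t ≤ 3 * T → 0 ≤ h →
    h ≤ 8 → dn h t ≤ C * Real.log T := by
  obtain ⟨C, hC, h⟩ := Pool.Agent.TH850.UV.cnt_crude
  refine ⟨C, hC, fun T hT t g ht ht2 hg hg8 => ?_⟩
  have h1 := h T hT t g ht ht2 hg hg8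
  rw [cnt_NZ (by linarith), if_pos hg] at h1
  exact h1

lemma log_sq_le {T : ℝ} (hT : 1 ≤ T) : (Real.log T) ^ 2 ≤ 4 * T := by
  have h0 : 0 ≤ Real.log T := Real.log_nonneg hT
  have hs : 0 < Real.sqrt T := Real.sqrt_pos.2 (by linarith)
  have e : Real.sqrt T ^ 2 = T := Real.sq_sqrt (by linarith)
  have h1 : Real.log T = 2 * Real.log (Real.sqrt T) := by
    conv_lhs => rw [← e]
    rw [Real.log_pow]; norm_num
  have h2 : Real.log (Real.sqrt T) ≤ Real.sqrt T :=
    (Real.log_le_sub_one_of_pos hs).trans (by linarith)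
  have h3 : Real.log T ≤ 2 * Real.sqrt T := by linarith
  nlinarith

/-- monotonicity of the condition -/
lemma cond_mono {b c K : ℝ} (hb : 0 ≤ b) (hbc : b ≤ c) (hK : 0 ≤ K) (hc : c * Real.log c ≤ K) :
    b * Real.log b ≤ K := by
  rcases le_or_gt b 1 with h | h
  · have h1 : Real.log b ≤ 0 := by
      rcases hb.eq_or_lt with h0 | h0
      · rw [← h0]; simp
      · exact Real.log_nonpos hb h
    have := mul_nonpos_of_nonneg_of_nonpos hb h1
    linarith
  · have h1 : Real.log b ≤ Real.log c := Real.log_le_log (by linarith) hbc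
    have h2 : 0 ≤ Real.log b := Real.log_nonneg h.le
    have : b * Real.log b ≤ c * Real.log c := mul_le_mul hbc h1 h2 (by linarith)
    linarith

/-- the condition for `a + 1` and `2 a` -/
lemma cond_succ {B : ℝ} (hB : 1 ≤ B) {T : ℝ} (hTb : Real.exp B ≤ Real.log T)
    {a : ℝ} (ha : 0 ≤ a) (hc : a * Real.log a ≤ B * Real.log T) :
    (a + 1) * Real.log (a + 1) ≤ (2 * B + 2) * Real.log T := by
  have hL0 : 0 < Real.log T := (Real.exp_pos B).trans_le hTb
  have hL1 : 2 ≤ Real.log T := by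
    have h1 : B + 1 ≤ Real.exp B := Real.add_one_le_exp B
    linarith
  have hl2 : 0 < Real.log 2 := Real.log_pos (by norm_num)
  have hl2' : Real.log 2 < 1 := by have := Real.log_two_lt_d9; linarith
  rcases le_or_gt a 1 with h | h
  · have h1 : Real.log (a + 1) ≤ Real.log 2 := Real.log_le_log (by linarith) (by linarith)
    have h0 : 0 ≤ Real.log (a + 1) := Real.log_nonneg (by linarith)
    nlinarith
  · have h1 : Real.log (a + 1) ≤ Real.log 2 + Real.log a := by
      rw [← Real.log_mul (by norm_num) (by linarith)]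
      exact Real.log_le_log (by linarith) (by linarith)
    have h2 := small_of_cond hB hTb hc
    have h3 : 0 ≤ Real.log a := Real.log_nonneg h.le
    calc (a + 1) * Real.log (a + 1) ≤ (2 * a) * (1 + Real.log a) :=
          mul_le_mul (by linarith) (by linarith) (Real.log_nonneg (by linarith)) (by linarith)
      _ = 2 * a + 2 * (a * Real.log a) := by ring
      _ ≤ 2 * Real.log T + 2 * (B * Real.log T) := by linarith
      _ = (2 * B + 2) * Real.log T := by ring

lemma NZ_ii (a b : ℝ) : IntervalIntegrable (fun t => (NZ t : ℝ)) volume a b :=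
  NZr_mono.intervalIntegrable

/-- the mean of the counts -/
lemma mean_le : ∃ C : ℝ, 0 < C ∧ ∀ T : ℝ, 26 ≤ T → ∀ a : ℝ, 0 ≤ a → a ≤ 2 * Real.log T →
    ∀ y T1 : ℝ, 0 ≤ y → 0 ≤ T1 → y + T1 ≤ T →
    |(∫ t in (0 : ℝ)..T1, dn (hw T a) (t + y)) - a * T1| ≤ C * T * (a / Real.log T) := by
  obtain ⟨C, hC, hlin⟩ := NZ_lin
  have hpi := Real.pi_gt_three
  have hpi' := Real.pi_lt_d2
  refine ⟨13 + 14 * C, by linarith, fun T hT a ha haL y T1 hy hT1 hyT => ?_⟩
  have hL0 : 0 < Real.log T := Real.log_pos (by linarith)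
  have hLT : Real.log T ≤ T := (Real.log_le_sub_one_of_pos (by linarith)).trans (by linarith)
  obtain ⟨w, hw'⟩ : ∃ w : ℝ, w = hw T a := ⟨_, rfl⟩
  have hwd : w = 2 * Real.pi * a / Real.log T := by rw [hw']; rfl
  have hw0 : 0 ≤ w := by rw [hwd]; positivity
  have hw13 : w ≤ 13 := by
    rw [hwd, div_le_iff₀ hL0]
    nlinarith
  have hwL : w * Real.log T / (2 * Real.pi) = a := by rw [hwd]; field_simp
  rw [← hw']
  have e1 : ∫ t in (0 : ℝ)..T1, dn w (t + y) =
      (∫ t in (T1 + y)..(T1 + y + w), (NZ t : ℝ)) - ∫ t in y..(y + w), (NZ t : ℝ) := by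
    have e2 : ∀ t : ℝ, dn w (t + y) = (NZ (t + (y + w)) : ℝ) - NZ (t + y) := by
      intro t
      unfold dn
      rw [add_assoc]
    simp_rw [e2]
    have i1 : IntervalIntegrable (fun t => (NZ (t + (y + w)) : ℝ)) volume 0 T1 :=
      (show Monotone fun t : ℝ => (NZ (t + (y + w)) : ℝ) from
        fun _ _ h => NZr_mono (by linarith)).intervalIntegrable
    have i2 : IntervalIntegrable (fun t => (NZ (t + y) : ℝ)) volume 0 T1 :=
      (show Monotone fun t : ℝ => (NZ (t + y) : ℝ) from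
        fun _ _ h => NZr_mono (by linarith)).intervalIntegrable
    rw [intervalIntegral.integral_sub i1 i2,
      intervalIntegral.integral_comp_add_right (fun t => (NZ t : ℝ)) (y + w),
      intervalIntegral.integral_comp_add_right (fun t => (NZ t : ℝ)) y, zero_add, zero_add]
    have h1 := intervalIntegral.integral_add_adjacent_intervals (NZ_ii y (y + w))
      (NZ_ii (y + w) (T1 + (y + w)))
    have h2 := intervalIntegral.integral_add_adjacent_intervals (NZ_ii y (T1 + y))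
      (NZ_ii (T1 + y) (T1 + y + w))
    rw [show T1 + (y + w) = T1 + y + w by ring] at h1 ⊢
    linarith
  have hbd : ∀ c : ℝ, w * NZ c ≤ (∫ t in c..(c + w), (NZ t : ℝ)) ∧
      (∫ t in c..(c + w), (NZ t : ℝ)) ≤ w * NZ (c + w) := by
    intro c
    constructor
    · have := intervalIntegral.integral_mono_on (show c ≤ c + w by linarith)
        (intervalIntegrable_const (c := (NZ c : ℝ))) (NZ_ii c (c + w))
        (fun t ht => NZr_mono ht.1)
      rwa [intervalIntegral.integral_const, smul_eq_mul, show c + w - c = w by ring] at this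
    · have := intervalIntegral.integral_mono_on (show c ≤ c + w by linarith)
        (NZ_ii c (c + w)) (intervalIntegrable_const (c := (NZ (c + w) : ℝ)))
        (fun t ht => NZr_mono ht.2)
      rwa [intervalIntegral.integral_const, smul_eq_mul, show c + w - c = w by ring] at this
  have l1 := abs_le.1 (hlin T (by linarith) (T1 + y) (by linarith) (by linarith))
  have l2 := abs_le.1 (hlin T (by linarith) (T1 + y + w) (by linarith) (by linarith))
  have l3 := abs_le.1 (hlin T (by linarith) y hy (by linarith))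
  have l4 := abs_le.1 (hlin T (by linarith) (y + w) (by linarith) (by linarith))
  obtain ⟨b1, b2⟩ := hbd (T1 + y)
  obtain ⟨b3, b4⟩ := hbd y
  have hwa : a * w ≤ 13 * T * (a / Real.log T) := by
    have h1 : a * w ≤ a * 13 := mul_le_mul_of_nonneg_left hw13 ha
    have h2 : a = (a / Real.log T) * Real.log T := by field_simp
    have h3 : (a / Real.log T) * Real.log T ≤ (a / Real.log T) * T :=
      mul_le_mul_of_nonneg_left hLT (by positivity)
    nlinarith
  have hwC : 2 * C * T * w ≤ 14 * C * T * (a / Real.log T) := by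
    have h1 : w ≤ 7 * (a / Real.log T) := by
      rw [hwd, mul_div_assoc]
      apply mul_le_mul_of_nonneg_right _ (by positivity)
      linarith
    have h2 : 0 ≤ 2 * C * T := by positivity
    nlinarith
  have k1 : w * NZ (T1 + y + w) ≤ w * ((T1 + y + w) * Real.log T / (2 * Real.pi) + C * T) :=
    mul_le_mul_of_nonneg_left (by linarith [l2.2]) hw0
  have k2 : w * (y * Real.log T / (2 * Real.pi) - C * T) ≤ w * NZ y :=
    mul_le_mul_of_nonneg_left (by linarith [l3.1]) hw0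
  have k3 : w * ((T1 + y) * Real.log T / (2 * Real.pi) - C * T) ≤ w * NZ (T1 + y) :=
    mul_le_mul_of_nonneg_left (by linarith [l1.1]) hw0
  have k4 : w * NZ (y + w) ≤ w * ((y + w) * Real.log T / (2 * Real.pi) + C * T) :=
    mul_le_mul_of_nonneg_left (by linarith [l4.2]) hw0
  have g1 : w * ((T1 + y + w) * Real.log T / (2 * Real.pi) + C * T) =
      (w * Real.log T / (2 * Real.pi)) * (T1 + y + w) + C * T * w := by ring
  have g2 : w * (y * Real.log T / (2 * Real.pi) - C * T) =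
      (w * Real.log T / (2 * Real.pi)) * y - C * T * w := by ring
  have g3 : w * ((T1 + y) * Real.log T / (2 * Real.pi) - C * T) =
      (w * Real.log T / (2 * Real.pi)) * (T1 + y) - C * T * w := by ring
  have g4 : w * ((y + w) * Real.log T / (2 * Real.pi) + C * T) =
      (w * Real.log T / (2 * Real.pi)) * (y + w) + C * T * w := by ring
  rw [g1, hwL] at k1
  rw [g2, hwL] at k2
  rw [g3, hwL] at k3
  rw [g4, hwL] at k4
  rw [e1, abs_le]
  constructor
  · nlinarith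
  · nlinarith

/-- the mean square over `[0, T]` is at most `C T (1 + log (1 + a))` -/
lemma var_le (B : ℝ) (hB : 1 ≤ B) : ∃ C T0 : ℝ, 0 < C ∧ 10 ≤ T0 ∧ ∀ T : ℝ, T0 ≤ T →
    ∀ a : ℝ, 0 ≤ a → a * Real.log a ≤ B * Real.log T →
    ∫ t in (0 : ℝ)..T, (dn (hw T a) t - a) ^ 2 ≤ C * T * (1 + Real.log (1 + a)) := by
  obtain ⟨C, T0, hC, hT0, h⟩ := var_all B hB
  refine ⟨C + 1, T0, by linarith, hT0, fun T hT a ha hc => ?_⟩
  have h1 := (abs_le.1 (h T hT a ha hc)).2
  have hpi := Real.pi_gt_three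
  have hT0' : 0 < T := by linarith
  have hla : 0 ≤ Real.log (1 + a) := Real.log_nonneg (by linarith)
  have h2 : T / Real.pi ^ 2 * Real.log (1 + a) ≤ T * Real.log (1 + a) :=
    mul_le_mul_of_nonneg_right (div_le_self hT0'.le (by nlinarith)) hla
  have h3 : 0 ≤ C * T * Real.log (1 + a) := by positivity
  nlinarith

/-- a sub-interval -/
lemma sub_int {f : ℝ → ℝ} (hf : ∀ x y : ℝ, IntervalIntegrable f volume x y) (h0 : ∀ t, 0 ≤ f t)
    {s E T : ℝ} (hs : 0 ≤ s) (hsE : s ≤ E) (hE : E ≤ T) :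
    ∫ t in s..E, f t ≤ ∫ t in (0 : ℝ)..T, f t := by
  have e1 := intervalIntegral.integral_add_adjacent_intervals (hf 0 s) (hf s E)
  have e2 := intervalIntegral.integral_add_adjacent_intervals (hf 0 E) (hf E T)
  have h1 : 0 ≤ ∫ t in (0 : ℝ)..s, f t := intervalIntegral.integral_nonneg hs fun t _ => h0 t
  have h2 : 0 ≤ ∫ t in E..T, f t := intervalIntegral.integral_nonneg hE fun t _ => h0 t
  linarith

lemma sq_ii (h a : ℝ) (x y : ℝ) : IntervalIntegrable (fun t => (dn h t - a) ^ 2) volume x y := by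
  simpa using ii_sq h 0 a x y

/-- the correlation of the deviations, by the inequality of Cauchy and Schwarz -/
lemma uv_bound (B : ℝ) (hB : 1 ≤ B) : ∃ C T0 : ℝ, 0 < C ∧ 10 ≤ T0 ∧ ∀ T : ℝ, T0 ≤ T →
    ∀ a : ℝ, 0 ≤ a → a * Real.log a ≤ B * Real.log T → ∀ y T1 : ℝ, 0 ≤ y → 0 ≤ T1 → y + T1 ≤ T →
    |∫ t in (0 : ℝ)..T1, (dn (hw T 1) t - 1) * (dn (hw T a) (t + y) - a)| ≤
      C * T * Real.sqrt (1 + Real.log (1 + a)) := by
  obtain ⟨C, T0, hC, hT0, h⟩ := var_le B hB
  refine ⟨2 * C, T0, by linarith, hT0, fun T hT a ha hc y T1 hy hT1 hyT => ?_⟩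
  have hTp : 0 < T := by linarith
  have hL0 : 0 ≤ Real.log T := Real.log_nonneg (by linarith)
  have hl2' : Real.log 2 < 1 := by have := Real.log_two_lt_d9; linarith
  obtain ⟨s, hs⟩ : ∃ s : ℝ, s = Real.sqrt (1 + Real.log (1 + a)) := ⟨_, rfl⟩
  have hla : 0 ≤ Real.log (1 + a) := Real.log_nonneg (by linarith)
  have hss : s ^ 2 = 1 + Real.log (1 + a) := by rw [hs]; exact Real.sq_sqrt (by linarith)
  have hs0 : 0 < s := by rw [hs]; exact Real.sqrt_pos.2 (by linarith)
  have h1 := h T hT 1 zero_le_one (by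
    rw [Real.log_one, mul_zero]
    positivity)
  have h2 := h T hT a ha hc
  have k1 : ∫ t in (0 : ℝ)..T1, (dn (hw T 1) t - 1) ^ 2 ≤ 2 * C * T := by
    refine (sub_int (T := T) (sq_ii (hw T 1) 1) (fun t => sq_nonneg _) le_rfl hT1
      (by linarith)).trans ?_
    refine h1.trans ?_
    have e : (1 : ℝ) + 1 = 2 := by norm_num
    rw [e]
    have : 0 ≤ C * T := by positivity
    nlinarith
  have k2 : ∫ t in (0 : ℝ)..T1, (dn (hw T a) (t + y) - a) ^ 2 ≤ C * T * s ^ 2 := by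
    rw [intervalIntegral.integral_comp_add_right (fun t => (dn (hw T a) t - a) ^ 2) y, zero_add, hss]
    exact (sub_int (T := T) (sq_ii (hw T a) a) (fun t => sq_nonneg _) hy (by linarith)
      (by linarith)).trans h2
  have hpt : ∀ t, |(dn (hw T 1) t - 1) * (dn (hw T a) (t + y) - a)| ≤
      (s / 2) * (dn (hw T 1) t - 1) ^ 2 + (1 / (2 * s)) * (dn (hw T a) (t + y) - a) ^ 2 := by
    intro t
    rw [abs_mul, ← sq_abs (dn (hw T 1) t - 1), ← sq_abs (dn (hw T a) (t + y) - a)]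
    obtain ⟨u, hu⟩ : ∃ u : ℝ, u = |dn (hw T 1) t - 1| := ⟨_, rfl⟩
    obtain ⟨v, hv⟩ : ∃ v : ℝ, v = |dn (hw T a) (t + y) - a| := ⟨_, rfl⟩
    rw [← hu, ← hv]
    have h3 : 0 ≤ (1 / (2 * s)) * (s * u - v) ^ 2 := by positivity
    have h4 : (1 / (2 * s)) * (s * u - v) ^ 2 = (s / 2) * u ^ 2 + (1 / (2 * s)) * v ^ 2 - u * v := by
      field_simp
      ring
    linarith
  have i0 : IntervalIntegrable (fun t => (dn (hw T 1) t - 1) * (dn (hw T a) (t + y) - a))
      volume 0 T1 := by simpa using ii_two (hw T 1) 0 1 (hw T a) y a 0 T1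
  have i1 := (sq_ii (hw T 1) 1 0 T1).const_mul (s / 2)
  have i2 := (ii_sq (hw T a) y a 0 T1).const_mul (1 / (2 * s))
  refine (intervalIntegral.abs_integral_le_integral_abs hT1).trans ?_
  refine (intervalIntegral.integral_mono_on hT1 i0.abs (i1.add i2) fun t _ => hpt t).trans ?_
  rw [intervalIntegral.integral_add i1 i2, intervalIntegral.integral_const_mul,
    intervalIntegral.integral_const_mul, ← hs]
  have m1 := mul_le_mul_of_nonneg_left k1 (show 0 ≤ s / 2 by positivity)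
  have m2 := mul_le_mul_of_nonneg_left k2 (show 0 ≤ 1 / (2 * s) by positivity)
  have e2 : 1 / (2 * s) * (C * T * s ^ 2) = C * T * s / 2 := by field_simp
  rw [e2] at m2
  have : 0 ≤ C * T * s := by positivity
  nlinarith

/-- decomposition of the correlation -/
lemma corr_split (T a y T1 : ℝ) :
    ∫ t in (0 : ℝ)..T1, dn (hw T 1) t * dn (hw T a) (t + y) =
      (∫ t in (0 : ℝ)..T1, (dn (hw T 1) t - 1) * (dn (hw T a) (t + y) - a)) +
      a * (∫ t in (0 : ℝ)..T1, dn (hw T 1) (t + 0)) +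
      (∫ t in (0 : ℝ)..T1, dn (hw T a) (t + y)) - a * T1 := by
  have i0 : IntervalIntegrable (fun t => (dn (hw T 1) t - 1) * (dn (hw T a) (t + y) - a))
      volume 0 T1 := by simpa using ii_two (hw T 1) 0 1 (hw T a) y a 0 T1
  have i1 : IntervalIntegrable (fun t => dn (hw T 1) (t + 0)) volume 0 T1 := by
    simpa using ii_one (hw T 1) 0 0 0 T1
  have i2 : IntervalIntegrable (fun t => dn (hw T a) (t + y)) volume 0 T1 := by
    simpa using ii_one (hw T a) y 0 0 T1
  have e : ∀ t, dn (hw T 1) t * dn (hw T a) (t + y) =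
      (dn (hw T 1) t - 1) * (dn (hw T a) (t + y) - a) + a * dn (hw T 1) (t + 0) +
        dn (hw T a) (t + y) - a := by
    intro t
    rw [add_zero]
    ring
  simp_rw [e]
  rw [intervalIntegral.integral_sub ((i0.add (i1.const_mul a)).add i2) (by simp),
    intervalIntegral.integral_add (i0.add (i1.const_mul a)) i2,
    intervalIntegral.integral_add i0 (i1.const_mul a), intervalIntegral.integral_const_mul,
    intervalIntegral.integral_const, smul_eq_mul]
  ring

/-- the correlation up to the correlation of the deviations -/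
lemma corr_of_uv (B : ℝ) (hB : 1 ≤ B) : ∃ C T0 : ℝ, 0 < C ∧ 26 ≤ T0 ∧ ∀ T : ℝ, T0 ≤ T →
    ∀ a : ℝ, 0 ≤ a → a * Real.log a ≤ B * Real.log T → ∀ y T1 : ℝ, 0 ≤ y → 0 ≤ T1 → y + T1 ≤ T →
    |(∫ t in (0 : ℝ)..T1, dn (hw T 1) t * dn (hw T a) (t + y)) - a * T1 -
      ∫ t in (0 : ℝ)..T1, (dn (hw T 1) t - 1) * (dn (hw T a) (t + y) - a)| ≤ C * T := by
  obtain ⟨C, hC, hm⟩ := mean_le
  obtain ⟨T1, hT1⟩ := (Real.tendsto_log_atTop.eventually_ge_atTop
    (Real.exp B)).exists_forall_of_atTop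
  refine ⟨2 * C, max T1 26, by linarith, le_max_right _ _, fun T hT a ha hc y S hy hS hyT => ?_⟩
  have hTb := hT1 T ((le_max_left _ _).trans hT)
  have hT26 : 26 ≤ T := (le_max_right _ _).trans hT
  have hL0 : 0 < Real.log T := (Real.exp_pos B).trans_le hTb
  have hL1 : 2 ≤ Real.log T := by
    have h1 : B + 1 ≤ Real.exp B := Real.add_one_le_exp B
    linarith
  have haL := small_of_cond hB hTb hc
  have h1 := hm T hT26 1 zero_le_one (by linarith) 0 S le_rfl hS (by linarith)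
  have h2 := hm T hT26 a ha (by linarith) y S hy hS hyT
  rw [corr_split]
  have e : (∫ t in (0 : ℝ)..S, (dn (hw T 1) t - 1) * (dn (hw T a) (t + y) - a)) +
      a * (∫ t in (0 : ℝ)..S, dn (hw T 1) (t + 0)) +
      (∫ t in (0 : ℝ)..S, dn (hw T a) (t + y)) - a * S - a * S -
      (∫ t in (0 : ℝ)..S, (dn (hw T 1) t - 1) * (dn (hw T a) (t + y) - a)) =
      a * ((∫ t in (0 : ℝ)..S, dn (hw T 1) (t + 0)) - 1 * S) +
      ((∫ t in (0 : ℝ)..S, dn (hw T a) (t + y)) - a * S) := by ring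
  rw [e]
  have hq : a / Real.log T ≤ 1 := (div_le_one hL0).2 haL
  have hCT : 0 ≤ C * T := by positivity
  have h3 : |a * ((∫ t in (0 : ℝ)..S, dn (hw T 1) (t + 0)) - 1 * S)| ≤ C * T := by
    rw [abs_mul, abs_of_nonneg ha]
    have h4 := mul_le_mul_of_nonneg_left h1 ha
    have e2 : a * (C * T * (1 / Real.log T)) = C * T * (a / Real.log T) := by ring
    rw [e2] at h4
    nlinarith
  have h5 : |(∫ t in (0 : ℝ)..S, dn (hw T a) (t + y)) - a * S| ≤ C * T := by nlinarith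
  calc _ ≤ |a * ((∫ t in (0 : ℝ)..S, dn (hw T 1) (t + 0)) - 1 * S)| +
        |(∫ t in (0 : ℝ)..S, dn (hw T a) (t + y)) - a * S| := abs_add_le _ _
    _ ≤ 2 * C * T := by linarith

/-- **windows at all distances** -/
lemma corr_far (B : ℝ) (hB : 1 ≤ B) : ∃ C T0 : ℝ, 0 < C ∧ 26 ≤ T0 ∧ ∀ T : ℝ, T0 ≤ T →
    ∀ a : ℝ, 0 ≤ a → a * Real.log a ≤ B * Real.log T → ∀ y T1 : ℝ, 0 ≤ y → 0 ≤ T1 → y + T1 ≤ T →
    |(∫ t in (0 : ℝ)..T1, dn (hw T 1) t * dn (hw T a) (t + y)) - a * T1| ≤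
      C * T * Real.sqrt (1 + Real.log (1 + a)) := by
  obtain ⟨C1, T1, hC1, hT1, h1⟩ := uv_bound B hB
  obtain ⟨C2, T2, hC2, hT2, h2⟩ := corr_of_uv B hB
  refine ⟨C1 + C2, max T1 T2, by linarith, hT2.trans (le_max_right _ _),
    fun T hT a ha hc y S hy hS hyT => ?_⟩
  have k1 := h1 T ((le_max_left _ _).trans hT) a ha hc y S hy hS hyT
  have k2 := h2 T ((le_max_right _ _).trans hT) a ha hc y S hy hS hyT
  have hT26 : 26 ≤ T := hT2.trans ((le_max_right _ _).trans hT)
  have hla : 0 ≤ Real.log (1 + a) := Real.log_nonneg (by linarith)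
  have hs : 1 ≤ Real.sqrt (1 + Real.log (1 + a)) := by
    rw [show (1 : ℝ) = Real.sqrt 1 from Real.sqrt_one.symm]
    refine Real.sqrt_le_sqrt ?_
    rw [Real.sqrt_one]; linarith
  have h3 : C2 * T * 1 ≤ C2 * T * Real.sqrt (1 + Real.log (1 + a)) :=
    mul_le_mul_of_nonneg_left hs (by positivity)
  have a1 := abs_le.1 k1
  have a2 := abs_le.1 k2
  rw [abs_le]
  constructor <;> linarith [a1.1, a1.2, a2.1, a2.2]

/-- the variance over slightly different intervals -/
lemma var_shift (B : ℝ) (hB : 1 ≤ B) : ∃ C T0 : ℝ, 0 < C ∧ 60 ≤ T0 ∧ ∀ T : ℝ, T0 ≤ T →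
    ∀ a : ℝ, 0 ≤ a → a * Real.log a ≤ B * Real.log T → ∀ s E : ℝ, 0 ≤ s → s ≤ 7 → T - 30 ≤ E →
    E ≤ T + 10 →
    |(∫ t in s..E, (dn (hw T a) t - a) ^ 2) - T / Real.pi ^ 2 * Real.log (1 + a)| ≤ C * T := by
  obtain ⟨C, T1, hC, hT1, h⟩ := var_all B hB
  obtain ⟨C1, hC1, hcr⟩ := loc_crude
  obtain ⟨T2, hT2⟩ := (Real.tendsto_log_atTop.eventually_ge_atTop
    (Real.exp B)).exists_forall_of_atTop
  obtain ⟨K, hK⟩ : ∃ K : ℝ, K = (NZ 20 : ℝ) := ⟨_, rfl⟩
  have hK0 : 0 ≤ K := by rw [hK]; exact Nat.cast_nonneg _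
  have hpi := Real.pi_gt_three
  have hpi' := Real.pi_lt_d2
  refine ⟨C + 30 * ((C1 ^ 2 + 1) * 4) + 7 * (K ^ 2 + 4), max T1 (max T2 60), by positivity,
    (le_max_right _ _).trans (le_max_right _ _), fun T hT a ha hc s E hs hs7 hE1 hE2 => ?_⟩
  have hTT1 : T1 ≤ T := (le_max_left _ _).trans hT
  have hTb := hT2 T (((le_max_left _ _).trans (le_max_right _ _)).trans hT)
  have hT60 : 60 ≤ T := ((le_max_right _ _).trans (le_max_right _ _)).trans hT
  have hL0 : 0 < Real.log T := (Real.exp_pos B).trans_le hTb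
  have haL := small_of_cond hB hTb hc
  have hLT := log_sq_le (show 1 ≤ T by linarith)
  have hh0 : 0 ≤ hw T a := by unfold hw; positivity
  have hh7 : hw T a ≤ 7 := by
    unfold hw
    rw [div_le_iff₀ hL0]
    nlinarith
  have hi := sq_ii (hw T a) a
  have e1 := intervalIntegral.integral_add_adjacent_intervals (hi 0 s) (hi s E)
  have e2 := intervalIntegral.integral_add_adjacent_intervals (hi 0 T) (hi T E)
  have hv := abs_le.1 (h T hTT1 a ha hc)
  -- near `T`
  have hn : ∀ t : ℝ, T - 30 ≤ t → t ≤ T + 10 → (dn (hw T a) t - a) ^ 2 ≤ (C1 ^ 2 + 1) * 4 * T := by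
    intro t ht1 ht2
    have h1 := hcr T (by linarith) t (hw T a) (by linarith) (by linarith) hh0 (by linarith)
    have h2 := dn_nonneg hh0 t
    have h3 : (dn (hw T a) t) ^ 2 ≤ (C1 * Real.log T) ^ 2 := pow_le_pow_left₀ h2 h1 2
    have h4 : a ^ 2 ≤ Real.log T ^ 2 := pow_le_pow_left₀ ha haL 2
    have h5 : 0 ≤ dn (hw T a) t * a := mul_nonneg h2 ha
    have h6 : (C1 ^ 2 + 1) * Real.log T ^ 2 ≤ (C1 ^ 2 + 1) * (4 * T) :=
      mul_le_mul_of_nonneg_left hLT (by positivity)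
    nlinarith
  have hnear : |∫ t in T..E, (dn (hw T a) t - a) ^ 2| ≤ 30 * ((C1 ^ 2 + 1) * 4) * T := by
    have h1 := intervalIntegral.norm_integral_le_of_norm_le_const (a := T) (b := E)
      (f := fun t => (dn (hw T a) t - a) ^ 2) (C := (C1 ^ 2 + 1) * 4 * T) (fun t ht => by
        rw [Real.norm_eq_abs, abs_of_nonneg (sq_nonneg _)]
        have ht' := uIoc_subset_uIcc ht
        rw [mem_uIcc] at ht'
        rcases ht' with ht' | ht'
        · exact hn t (by linarith [ht'.1]) (by linarith [ht'.2])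
        · exact hn t (by linarith [ht'.1]) (by linarith [ht'.2]))
    rw [Real.norm_eq_abs] at h1
    have h2 : |E - T| ≤ 30 := by rw [abs_le]; constructor <;> linarith
    have h3 : 0 ≤ (C1 ^ 2 + 1) * 4 * T := by positivity
    nlinarith
  -- near `0`
  have hz : ∫ t in (0 : ℝ)..s, (dn (hw T a) t - a) ^ 2 ≤ 7 * (K ^ 2 + 4) * T := by
    have h1 := intervalIntegral.integral_mono_on hs (hi 0 s)
      (intervalIntegrable_const (c := (K ^ 2 + 4 * T))) (fun t ht => by
        have h2 := dn_nonneg hh0 t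
        have h3 : dn (hw T a) t ≤ K := by
          have h4 : (NZ (t + hw T a) : ℝ) ≤ NZ 20 := NZr_mono (by linarith [ht.2])
          have h5 : (0 : ℝ) ≤ NZ t := Nat.cast_nonneg _
          unfold dn
          rw [hK]; linarith
        have h4 : (dn (hw T a) t) ^ 2 ≤ K ^ 2 := pow_le_pow_left₀ h2 h3 2
        have h5 : a ^ 2 ≤ Real.log T ^ 2 := pow_le_pow_left₀ ha haL 2
        have h6 : 0 ≤ dn (hw T a) t * a := mul_nonneg h2 ha
        nlinarith)
    rw [intervalIntegral.integral_const, smul_eq_mul, sub_zero] at h1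
    have h2 : s * (K ^ 2 + 4 * T) ≤ 7 * (K ^ 2 + 4 * T) :=
      mul_le_mul_of_nonneg_right hs7 (by positivity)
    have h3 : K ^ 2 ≤ K ^ 2 * T := le_mul_of_one_le_right (by positivity) (by linarith)
    nlinarith
  have hz0 : 0 ≤ ∫ t in (0 : ℝ)..s, (dn (hw T a) t - a) ^ 2 :=
    intervalIntegral.integral_nonneg hs fun t _ => sq_nonneg _
  have a1 := abs_le.1 hnear
  rw [abs_le]
  constructor <;> nlinarith [hv.1, hv.2, a1.1, a1.2]

lemma hw_add (T a b : ℝ) : hw T (a + b) = hw T a + hw T b := by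
  unfold hw
  ring

/-- the correlation of the deviations in two windows at a bounded distance, by polarisation -/
lemma uv_near (B : ℝ) (hB : 1 ≤ B) : ∃ C T0 : ℝ, 0 < C ∧ 60 ≤ T0 ∧ ∀ T : ℝ, T0 ≤ T →
    ∀ Y W : ℝ, 1 ≤ Y → 0 ≤ W → (Y + W) * Real.log (Y + W) ≤ B * Real.log T → ∀ T1 : ℝ,
    T - 30 ≤ T1 → T1 ≤ T →
    |∫ t in (0 : ℝ)..T1, (dn (hw T 1) t - 1) * (dn (hw T W) (t + hw T Y) - W)| ≤ C * T := by
  obtain ⟨C, T0, hC, hT0, h⟩ := var_shift B hB
  have hpi := Real.pi_gt_three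
  have hpi' := Real.pi_lt_d2
  have hl2 : 0 < Real.log 2 := Real.log_pos (by norm_num)
  have hl2' : Real.log 2 < 1 := by have := Real.log_two_lt_d9; linarith
  refine ⟨2 * C + 1, T0, by linarith, hT0, fun T hT Y W hY hW hc T1 h1 h2 => ?_⟩
  have hT60 : 60 ≤ T := hT0.trans hT
  have hL1 : 1 ≤ Real.log T := by
    rw [Real.le_log_iff_exp_le (by linarith)]
    linarith [Real.exp_one_lt_d9]
  have hBL : 0 ≤ B * Real.log T := by positivity
  have c1 : (Y - 1) * Real.log (Y - 1) ≤ B * Real.log T :=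
    cond_mono (by linarith) (by linarith) hBL hc
  have c2 : Y * Real.log Y ≤ B * Real.log T := cond_mono (by linarith) (by linarith) hBL hc
  have c3 : (Y - 1 + W) * Real.log (Y - 1 + W) ≤ B * Real.log T :=
    cond_mono (by linarith) (by linarith) hBL hc
  obtain ⟨δ, hδ⟩ : ∃ δ : ℝ, δ = hw T 1 := ⟨_, rfl⟩
  have hδ0 : 0 ≤ δ := by rw [hδ]; unfold hw; positivity
  have hδ7 : δ ≤ 7 := by
    rw [hδ]
    unfold hw
    rw [div_le_iff₀ (by linarith)]
    nlinarith
  have v1 := h T hT (Y + W) (by linarith) hc 0 T1 le_rfl (by norm_num) h1 (by linarith)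
  have v2 := h T hT (Y - 1) (by linarith) c1 δ (T1 + δ) hδ0 hδ7 (by linarith) (by linarith)
  have v3 := h T hT Y (by linarith) c2 0 T1 le_rfl (by norm_num) h1 (by linarith)
  have v4 := h T hT (Y - 1 + W) (by linarith) c3 δ (T1 + δ) hδ0 hδ7 (by linarith) (by linarith)
  have s2 : ∫ t in δ..(T1 + δ), (dn (hw T (Y - 1)) t - (Y - 1)) ^ 2 =
      ∫ t in (0 : ℝ)..T1, (dn (hw T (Y - 1)) (t + δ) - (Y - 1)) ^ 2 := by
    rw [intervalIntegral.integral_comp_add_right (fun t => (dn (hw T (Y - 1)) t - (Y - 1)) ^ 2) δ,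
      zero_add]
  have s4 : ∫ t in δ..(T1 + δ), (dn (hw T (Y - 1 + W)) t - (Y - 1 + W)) ^ 2 =
      ∫ t in (0 : ℝ)..T1, (dn (hw T (Y - 1 + W)) (t + δ) - (Y - 1 + W)) ^ 2 := by
    rw [intervalIntegral.integral_comp_add_right
      (fun t => (dn (hw T (Y - 1 + W)) t - (Y - 1 + W)) ^ 2) δ, zero_add]
  rw [s2] at v2
  rw [s4] at v4
  have i1 := sq_ii (hw T (Y + W)) (Y + W) 0 T1
  have i2 := ii_sq (hw T (Y - 1)) δ (Y - 1) 0 T1
  have i3 := sq_ii (hw T Y) Y 0 T1
  have i4 := ii_sq (hw T (Y - 1 + W)) δ (Y - 1 + W) 0 T1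
  have hpt : ∀ t, 2 * ((dn (hw T 1) t - 1) * (dn (hw T W) (t + hw T Y) - W)) =
      (dn (hw T (Y + W)) t - (Y + W)) ^ 2 + (dn (hw T (Y - 1)) (t + δ) - (Y - 1)) ^ 2 -
      (dn (hw T Y) t - Y) ^ 2 - (dn (hw T (Y - 1 + W)) (t + δ) - (Y - 1 + W)) ^ 2 := by
    intro t
    have e1 : dn (hw T Y) t = dn (hw T 1) t + dn (hw T (Y - 1)) (t + δ) := by
      rw [hδ, ← dn_add, ← hw_add]
      congr 2
      ring
    have e2 : dn (hw T (Y + W)) t = dn (hw T Y) t + dn (hw T W) (t + hw T Y) := by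
      rw [← dn_add, ← hw_add]
    have e3 : dn (hw T (Y - 1 + W)) (t + δ) =
        dn (hw T (Y - 1)) (t + δ) + dn (hw T W) (t + hw T Y) := by
      have e4 : t + hw T Y = t + δ + hw T (Y - 1) := by
        rw [hδ, add_assoc, ← hw_add]
        congr 2
        ring
      rw [e4, ← dn_add, ← hw_add]
    rw [e2, e3, e1]
    ring
  have e5 : 2 * ∫ t in (0 : ℝ)..T1, (dn (hw T 1) t - 1) * (dn (hw T W) (t + hw T Y) - W) =
      (∫ t in (0 : ℝ)..T1, (dn (hw T (Y + W)) t - (Y + W)) ^ 2) +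
      (∫ t in (0 : ℝ)..T1, (dn (hw T (Y - 1)) (t + δ) - (Y - 1)) ^ 2) -
      (∫ t in (0 : ℝ)..T1, (dn (hw T Y) t - Y) ^ 2) -
      ∫ t in (0 : ℝ)..T1, (dn (hw T (Y - 1 + W)) (t + δ) - (Y - 1 + W)) ^ 2 := by
    rw [← intervalIntegral.integral_const_mul]
    simp_rw [hpt]
    rw [intervalIntegral.integral_sub ((i1.add i2).sub i3) i4,
      intervalIntegral.integral_sub (i1.add i2) i3, intervalIntegral.integral_add i1 i2]
  -- the logarithms
  have hd : ∀ x : ℝ, 1 ≤ x → 0 ≤ Real.log (1 + x) - Real.log x ∧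
      Real.log (1 + x) - Real.log x ≤ 1 := by
    intro x hx
    have k1 : Real.log x ≤ Real.log (1 + x) := Real.log_le_log (by linarith) (by linarith)
    have k2 : Real.log (1 + x) ≤ Real.log 2 + Real.log x := by
      rw [← Real.log_mul (by norm_num) (by linarith)]
      exact Real.log_le_log (by linarith) (by linarith)
    constructor <;> linarith
  obtain ⟨d1, d2⟩ := hd Y hY
  obtain ⟨d3, d4⟩ := hd (Y + W) (by linarith)
  have f1 : Real.log (1 + (Y - 1)) = Real.log Y := by congr 1; ring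
  have f2 : Real.log (1 + (Y - 1 + W)) = Real.log (Y + W) := by congr 1; ring
  rw [f1] at v2
  rw [f2] at v4
  have hTpi : T / Real.pi ^ 2 ≤ T := div_le_self (by linarith) (by nlinarith)
  have hTpi0 : 0 ≤ T / Real.pi ^ 2 := by positivity
  have g1 : T / Real.pi ^ 2 * (Real.log (1 + Y) - Real.log Y) ≤ T := by
    calc _ ≤ T * 1 := mul_le_mul hTpi d2 d1 (by linarith)
      _ = T := mul_one _
  have g2 : T / Real.pi ^ 2 * (Real.log (1 + (Y + W)) - Real.log (Y + W)) ≤ T := by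
    calc _ ≤ T * 1 := mul_le_mul hTpi d4 d3 (by linarith)
      _ = T := mul_one _
  have g3 : 0 ≤ T / Real.pi ^ 2 * (Real.log (1 + Y) - Real.log Y) := mul_nonneg hTpi0 d1
  have g4 : 0 ≤ T / Real.pi ^ 2 * (Real.log (1 + (Y + W)) - Real.log (Y + W)) :=
    mul_nonneg hTpi0 d3
  have a1 := abs_le.1 v1
  have a2 := abs_le.1 v2
  have a3 := abs_le.1 v3
  have a4 := abs_le.1 v4
  rw [abs_le]
  constructor <;> nlinarith [a1.1, a1.2, a2.1, a2.2, a3.1, a3.2, a4.1, a4.2]

/-- **windows at a bounded distance** -/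
lemma corr_near (B : ℝ) (hB : 1 ≤ B) : ∃ C T0 : ℝ, 0 < C ∧ 60 ≤ T0 ∧ ∀ T : ℝ, T0 ≤ T →
    ∀ Y W : ℝ, 1 ≤ Y → 0 ≤ W → (Y + W) * Real.log (Y + W) ≤ B * Real.log T → ∀ T1 : ℝ,
    T - 30 ≤ T1 → hw T Y + T1 ≤ T →
    |(∫ t in (0 : ℝ)..T1, dn (hw T 1) t * dn (hw T W) (t + hw T Y)) - W * T1| ≤ C * T := by
  obtain ⟨C1, T1, hC1, hT1, h1⟩ := uv_near B hB
  obtain ⟨C2, T2, hC2, hT2, h2⟩ := corr_of_uv B hB
  refine ⟨C1 + C2, max T1 T2, by linarith, hT1.trans (le_max_left _ _),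
    fun T hT Y W hY hW hc S hS1 hS2 => ?_⟩
  have hT60 : 60 ≤ T := hT1.trans ((le_max_left _ _).trans hT)
  have hL1 : 0 < Real.log T := Real.log_pos (by linarith)
  have hY0 : 0 ≤ hw T Y := by unfold hw; positivity
  have hcW : W * Real.log W ≤ B * Real.log T :=
    cond_mono hW (by linarith) (by positivity) hc
  have k1 := h1 T ((le_max_left _ _).trans hT) Y W hY hW hc S hS1 (by linarith)
  have k2 := h2 T ((le_max_right _ _).trans hT) W hW hcW (hw T Y) S hY0 (by linarith) hS2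
  have a1 := abs_le.1 k1
  have a2 := abs_le.1 k2
  rw [abs_le]
  constructor <;> linarith [a1.1, a1.2, a2.1, a2.2]

end Pool.Agent.Q212.PW
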