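import Pool.Agent.Q212.PW.Corr

/-! # Pairs of zeros in long windows: the number of pairs -/

set_option autoImplicit false

open MeasureTheory Set Filter Topology

namespace Pool.Agent.Q212.PW

open SG (NZ)

/-- the zeros with ordinate in `(0, S]` -/
noncomputable def Zs (S : ℝ) : Finset ℂ := (SG.ZS_finite S).toFinset

lemma mem_Zs {S : ℝ} {s : ℂ} : s ∈ Zs S ↔ s ∈ SG.ZS S := Set.Finite.mem_toFinset _

lemma Zs_im {S : ℝ} {s : ℂ} (h : s ∈ Zs S) : 0 < s.im ∧ s.im ≤ S :=
  ⟨(mem_Zs.1 h).2.2.2.1, (mem_Zs.1 h).2.2.2.2⟩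

lemma Zs_sub {S S' : ℝ} (h : S ≤ S') : Zs S ⊆ Zs S' := by
  intro s hs
  rw [mem_Zs] at hs ⊢
  obtain ⟨a1, a2, a3, a4, a5⟩ := hs
  exact ⟨a1, a2, a3, a4, a5.trans h⟩

/-- the multiplicity -/
noncomputable def mu (s : ℂ) : ℝ := (SG.zmult s : ℝ)

lemma mu_nonneg (s : ℂ) : 0 ≤ mu s := Nat.cast_nonneg _

lemma NZ_sum {x S : ℝ} (h : x ≤ S) :
    (NZ x : ℝ) = ∑ s ∈ Zs S, mu s * (if s.im ≤ x then 1 else 0) := by
  classical
  have e : NZ x = ∑ s ∈ (Zs S).filter (fun s => s.im ≤ x), SG.zmult s := by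
    rw [SG.NZ_eq]
    refine Finset.sum_congr ?_ fun _ _ => rfl
    ext s
    rw [Finset.mem_filter, mem_Zs, Set.Finite.mem_toFinset]
    constructor
    · rintro ⟨a1, a2, a3, a4, a5⟩
      exact ⟨⟨a1, a2, a3, a4, a5.trans h⟩, a5⟩
    · rintro ⟨⟨a1, a2, a3, a4, -⟩, a5⟩
      exact ⟨a1, a2, a3, a4, a5⟩
  rw [e]
  push_cast
  rw [Finset.sum_filter]
  refine Finset.sum_congr rfl fun s _ => ?_
  unfold mu
  split_ifs <;> simp

lemma NZ_diff {a b S : ℝ} (hab : a ≤ b) (hb : b ≤ S) :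
    (NZ b : ℝ) - NZ a = ∑ s ∈ Zs S, mu s * (if a < s.im ∧ s.im ≤ b then 1 else 0) := by
  rw [NZ_sum hb, NZ_sum (hab.trans hb), ← Finset.sum_sub_distrib]
  refine Finset.sum_congr rfl fun s _ => ?_
  rw [← mul_sub]
  congr 1
  by_cases h1 : s.im ≤ a
  · rw [if_pos (h1.trans hab), if_pos h1, if_neg (by rintro ⟨h2, -⟩; linarith), sub_self]
  · by_cases h2 : s.im ≤ b
    · rw [if_pos h2, if_neg h1, if_pos ⟨not_le.1 h1, h2⟩, sub_zero]
    · rw [if_neg h2, if_neg h1, if_neg (by rintro ⟨-, h3⟩; exact h2 h3), sub_zero]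

/-- the number of zeros with ordinate in `[g + x, g + z]` and at most `T` -/
noncomputable def ce (T x z g : ℝ) : ℝ :=
  ∑ s ∈ Zs T, mu s * (if x ≤ s.im - g ∧ s.im - g ≤ z then 1 else 0)

/-- the number of pairs -/
noncomputable def PN (T x z : ℝ) : ℝ := ∑ s' ∈ Zs T, mu s' * ce T x z s'.im

lemma ce_nonneg (T x z g : ℝ) : 0 ≤ ce T x z g := by
  unfold ce
  refine Finset.sum_nonneg fun s _ => mul_nonneg (mu_nonneg s) ?_
  split_ifs <;> norm_num

lemma PN_nonneg (T x z : ℝ) : 0 ≤ PN T x z :=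
  Finset.sum_nonneg fun s _ => mul_nonneg (mu_nonneg s) (ce_nonneg _ _ _ _)

lemma PN_mono {T x z x' z' : ℝ} (hx : x' ≤ x) (hz : z ≤ z') : PN T x z ≤ PN T x' z' := by
  unfold PN ce
  refine Finset.sum_le_sum fun s' _ => mul_le_mul_of_nonneg_left ?_ (mu_nonneg s')
  refine Finset.sum_le_sum fun s _ => mul_le_mul_of_nonneg_left ?_ (mu_nonneg s)
  by_cases h : x ≤ s.im - s'.im ∧ s.im - s'.im ≤ z
  · rw [if_pos h, if_pos ⟨hx.trans h.1, h.2.trans hz⟩]
  · rw [if_neg h]
    split_ifs <;> norm_num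

lemma PN_split (T x y z : ℝ) : PN T x z ≤ PN T x y + PN T y z := by
  unfold PN ce
  rw [← Finset.sum_add_distrib]
  refine Finset.sum_le_sum fun s' _ => ?_
  rw [← mul_add, ← Finset.sum_add_distrib]
  refine mul_le_mul_of_nonneg_left (Finset.sum_le_sum fun s _ => ?_) (mu_nonneg s')
  rw [← mul_add]
  refine mul_le_mul_of_nonneg_left ?_ (mu_nonneg s)
  by_cases h : x ≤ s.im - s'.im ∧ s.im - s'.im ≤ z
  · rw [if_pos h]
    rcases le_total (s.im - s'.im) y with h1 | h1
    · rw [if_pos ⟨h.1, h1⟩]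
      split_ifs <;> norm_num
    · rw [if_pos (⟨h1, h.2⟩ : y ≤ s.im - s'.im ∧ s.im - s'.im ≤ z)]
      split_ifs <;> norm_num
  · rw [if_neg h]
    split_ifs <;> norm_num

/-- the indicator of the windows which contain `g` -/
noncomputable def jn (δ g t : ℝ) : ℝ := (Ico (g - δ) g).indicator (fun _ => (1 : ℝ)) t

lemma jn_nonneg (δ g t : ℝ) : 0 ≤ jn δ g t := indicator_nonneg (fun _ _ => zero_le_one) _

lemma jn_ii (δ g a b : ℝ) : IntervalIntegrable (jn δ g) volume a b := by
  refine ii_of (measurable_const.indicator measurableSet_Ico) ⟨1, fun t _ => ?_⟩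
  change |jn δ g t| ≤ 1
  rw [abs_of_nonneg (jn_nonneg δ g t)]
  unfold jn
  exact indicator_le_self' (fun _ _ => zero_le_one) t

lemma sum_ii {ι : Type*} (S : Finset ι) (f : ι → ℝ → ℝ) (a b : ℝ)
    (h : ∀ i ∈ S, IntervalIntegrable (f i) volume a b) :
    IntervalIntegrable (fun t => ∑ i ∈ S, f i t) volume a b := by
  have e : (fun t => ∑ i ∈ S, f i t) = ∑ i ∈ S, f i := by
    ext t
    simp
  rw [e]
  exact IntervalIntegrable.sum S h

lemma jn_int_eq {δ g E : ℝ} (hE : 0 ≤ E) :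
    ∫ t in (0 : ℝ)..E, jn δ g t = volume.real (Ioc 0 E ∩ Ico (g - δ) g) := by
  unfold jn
  rw [intervalIntegral.integral_of_le hE, setIntegral_indicator measurableSet_Ico,
    setIntegral_const, smul_eq_mul, mul_one]

lemma jn_int_le {δ g E : ℝ} (hδ : 0 ≤ δ) (hE : 0 ≤ E) : ∫ t in (0 : ℝ)..E, jn δ g t ≤ δ := by
  rw [jn_int_eq hE]
  have h1 : volume.real (Ico (g - δ) g) = δ := by
    unfold Measure.real
    rw [Real.volume_Ico, ENNReal.toReal_ofReal (by linarith)]
    ring
  calc volume.real (Ioc 0 E ∩ Ico (g - δ) g) ≤ volume.real (Ico (g - δ) g) := by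
        refine measureReal_mono inter_subset_right ?_
        rw [Real.volume_Ico]
        exact ENNReal.ofReal_ne_top
    _ = δ := h1

lemma jn_int_ge {δ g E : ℝ} (hδ : 0 ≤ δ) (hE : 0 ≤ E) (h0 : δ ≤ g) (hg : g ≤ E) :
    δ ≤ ∫ t in (0 : ℝ)..E, jn δ g t := by
  rw [jn_int_eq hE]
  have h1 : volume.real (Ioo (g - δ) g) = δ := by
    unfold Measure.real
    rw [Real.volume_Ioo, ENNReal.toReal_ofReal (by linarith)]
    ring
  have hsub : Ioo (g - δ) g ⊆ Ioc 0 E ∩ Ico (g - δ) g := by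
    intro x hx
    exact ⟨⟨by linarith [hx.1], by linarith [hx.2]⟩, ⟨hx.1.le, hx.2⟩⟩
  calc δ = volume.real (Ioo (g - δ) g) := h1.symm
    _ ≤ _ := by
      refine measureReal_mono hsub ?_
      refine (measure_mono inter_subset_left).trans_lt ?_ |>.ne
      rw [Real.volume_Ioc]
      exact ENNReal.ofReal_lt_top

lemma jn_eq (δ g t : ℝ) : jn δ g t = if t < g ∧ g ≤ t + δ then 1 else 0 := by
  unfold jn
  rw [indicator_apply]
  congr 1
  apply propext
  rw [mem_Ico]
  constructor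
  · rintro ⟨h1, h2⟩; exact ⟨h2, by linarith⟩
  · rintro ⟨h1, h2⟩; exact ⟨by linarith, h1⟩

lemma dn_sum {δ t S : ℝ} (hδ : 0 ≤ δ) (h : t + δ ≤ S) :
    dn δ t = ∑ s ∈ Zs S, mu s * jn δ s.im t := by
  unfold dn
  rw [NZ_diff (show t ≤ t + δ by linarith) h]
  refine Finset.sum_congr rfl fun s _ => ?_
  rw [jn_eq]

lemma jn_sum_le {δ t T : ℝ} (hδ : 0 ≤ δ) : ∑ s ∈ Zs T, mu s * jn δ s.im t ≤ dn δ t := by
  rw [dn_sum hδ (le_max_right T (t + δ))]
  exact Finset.sum_le_sum_of_subset_of_nonneg (Zs_sub (le_max_left _ _))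
    fun s _ _ => mul_nonneg (mu_nonneg s) (jn_nonneg _ _ _)

lemma prod_ii (δ h s c d : ℝ) :
    IntervalIntegrable (fun t => dn δ t * dn h (t + s)) volume c d := by
  simpa using ii_two δ 0 0 h s 0 c d

lemma upper {T x z δ : ℝ} (hxz : x ≤ z) (hxT : x ≤ T) (hδ : 0 ≤ δ)
    (hlow : ∀ s ∈ Zs T, δ ≤ s.im) :
    δ * PN T x z ≤ ∫ t in (0 : ℝ)..(T - x), dn δ t * dn (z - x + δ) (t + x) := by
  have hE : 0 ≤ T - x := by linarith
  have h1 : δ * PN T x z ≤ ∑ s' ∈ Zs T, ∫ t in (0 : ℝ)..(T - x),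
      (mu s' * ce T x z s'.im) * jn δ s'.im t := by
    unfold PN
    rw [Finset.mul_sum]
    refine Finset.sum_le_sum fun s' hs' => ?_
    rw [intervalIntegral.integral_const_mul]
    have h0 : 0 ≤ mu s' * ce T x z s'.im := mul_nonneg (mu_nonneg _) (ce_nonneg _ _ _ _)
    by_cases h2 : s'.im ≤ T - x
    · have h3 := jn_int_ge hδ hE (hlow s' hs') h2
      nlinarith
    · have h3 : ce T x z s'.im = 0 := by
        unfold ce
        refine Finset.sum_eq_zero fun s hs => ?_
        rw [if_neg, mul_zero]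
        rintro ⟨h4, -⟩
        have := (Zs_im hs).2
        exact h2 (by linarith)
      rw [h3]
      simp
  refine h1.trans ?_
  rw [← intervalIntegral.integral_finsetSum fun s' _ => (jn_ii δ s'.im 0 (T - x)).const_mul _]
  refine intervalIntegral.integral_mono_on hE ?_ (prod_ii δ (z - x + δ) x 0 (T - x)) fun t _ => ?_
  · exact sum_ii _ (fun (s' : ℂ) t => (mu s' * ce T x z s'.im) * jn δ s'.im t) _ _
      fun s' _ => (jn_ii δ s'.im 0 (T - x)).const_mul _
  have hd0 : 0 ≤ dn (z - x + δ) (t + x) := dn_nonneg (by linarith) _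
  calc ∑ s' ∈ Zs T, (mu s' * ce T x z s'.im) * jn δ s'.im t ≤
      ∑ s' ∈ Zs T, (mu s' * jn δ s'.im t) * dn (z - x + δ) (t + x) := by
        refine Finset.sum_le_sum fun s' _ => ?_
        rw [jn_eq]
        by_cases h2 : t < s'.im ∧ s'.im ≤ t + δ
        · rw [if_pos h2, mul_one, mul_one]
          refine mul_le_mul_of_nonneg_left ?_ (mu_nonneg s')
          have h3 : ce T x z s'.im ≤ ∑ s ∈ Zs (max T (t + x + (z - x + δ))),
              mu s * (if t + x < s.im ∧ s.im ≤ t + x + (z - x + δ) then 1 else 0) := by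
            unfold ce
            refine (Finset.sum_le_sum (g := fun s => mu s *
              (if t + x < s.im ∧ s.im ≤ t + x + (z - x + δ) then 1 else 0)) fun s _ => ?_).trans
              (Finset.sum_le_sum_of_subset_of_nonneg (Zs_sub (le_max_left _ _)) fun s _ _ => ?_)
            · refine mul_le_mul_of_nonneg_left ?_ (mu_nonneg s)
              by_cases h4 : x ≤ s.im - s'.im ∧ s.im - s'.im ≤ z
              · rw [if_pos h4, if_pos ⟨by linarith [h4.1, h2.1], by linarith [h4.2, h2.2]⟩]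
              · rw [if_neg h4]
                split_ifs <;> norm_num
            · refine mul_nonneg (mu_nonneg s) ?_
              split_ifs <;> norm_num
          refine h3.trans (le_of_eq ?_)
          rw [← NZ_diff (by linarith) (le_max_right _ _)]
          rfl
        · rw [if_neg h2]
          simp
    _ = (∑ s' ∈ Zs T, mu s' * jn δ s'.im t) * dn (z - x + δ) (t + x) := by
        rw [Finset.sum_mul]
    _ ≤ dn δ t * dn (z - x + δ) (t + x) := mul_le_mul_of_nonneg_right (jn_sum_le hδ) hd0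

lemma lower {T x z δ : ℝ} (hx : 0 ≤ x) (hδ : 0 ≤ δ) (hδz : δ ≤ z - x) (hz : z + δ ≤ T) :
    ∫ t in (0 : ℝ)..(T - z - δ), dn δ t * dn (z - x - δ) (t + (x + δ)) ≤ δ * PN T x z := by
  have hE : 0 ≤ T - z - δ := by linarith
  have h1 : ∫ t in (0 : ℝ)..(T - z - δ), dn δ t * dn (z - x - δ) (t + (x + δ)) ≤
      ∫ t in (0 : ℝ)..(T - z - δ), ∑ s' ∈ Zs T, (mu s' * ce T x z s'.im) * jn δ s'.im t := by
    refine intervalIntegral.integral_mono_on hE (prod_ii δ (z - x - δ) (x + δ) 0 (T - z - δ)) ?_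
      fun t ht => ?_
    · exact sum_ii _ (fun (s' : ℂ) t => (mu s' * ce T x z s'.im) * jn δ s'.im t) _ _
        fun s' _ => (jn_ii δ s'.im 0 (T - z - δ)).const_mul _
    rw [dn_sum hδ (show t + δ ≤ T by linarith [ht.2]), Finset.sum_mul]
    refine Finset.sum_le_sum fun s' _ => ?_
    rw [jn_eq]
    by_cases h2 : t < s'.im ∧ s'.im ≤ t + δ
    · rw [if_pos h2, mul_one, mul_one]
      refine mul_le_mul_of_nonneg_left ?_ (mu_nonneg s')
      unfold dn ce
      rw [NZ_diff (show t + (x + δ) ≤ t + (x + δ) + (z - x - δ) by linarith)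
        (show t + (x + δ) + (z - x - δ) ≤ T by linarith [ht.2])]
      refine Finset.sum_le_sum fun s _ => mul_le_mul_of_nonneg_left ?_ (mu_nonneg s)
      by_cases h4 : t + (x + δ) < s.im ∧ s.im ≤ t + (x + δ) + (z - x - δ)
      · rw [if_pos h4, if_pos ⟨by linarith [h4.1, h2.2], by linarith [h4.2, h2.1]⟩]
      · rw [if_neg h4]
        split_ifs <;> norm_num
    · rw [if_neg h2]
      simp
  refine h1.trans ?_
  rw [intervalIntegral.integral_finsetSum fun s' _ => (jn_ii δ s'.im 0 (T - z - δ)).const_mul _]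
  unfold PN
  rw [Finset.mul_sum]
  refine Finset.sum_le_sum fun s' _ => ?_
  rw [intervalIntegral.integral_const_mul]
  have h0 : 0 ≤ mu s' * ce T x z s'.im := mul_nonneg (mu_nonneg _) (ce_nonneg _ _ _ _)
  have h3 := jn_int_le (g := s'.im) hδ hE
  nlinarith

/-- the ordinates are bounded below -/
lemma low_ord : ∃ δ : ℝ, 0 < δ ∧ ∀ T : ℝ, ∀ s ∈ Zs T, δ ≤ s.im := by
  classical
  rcases (Zs 1).eq_empty_or_nonempty with h | h
  · refine ⟨1, one_pos, fun T s hs => ?_⟩
    by_contra hcon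
    push Not at hcon
    have : s ∈ Zs 1 := by
      rw [mem_Zs] at hs ⊢
      obtain ⟨a1, a2, a3, a4, _⟩ := hs
      exact ⟨a1, a2, a3, a4, hcon.le⟩
    rw [h] at this
    simp at this
  · obtain ⟨s₀, hs₀, hmin⟩ := (Zs 1).exists_min_image (fun s => s.im) h
    refine ⟨min 1 s₀.im, lt_min one_pos (Zs_im hs₀).1, fun T s hs => ?_⟩
    rcases le_or_gt 1 s.im with h1 | h1
    · exact (min_le_left _ _).trans h1
    · refine (min_le_right _ _).trans (hmin s ?_)
      rw [mem_Zs] at hs ⊢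
      obtain ⟨a1, a2, a3, a4, _⟩ := hs
      exact ⟨a1, a2, a3, a4, h1.le⟩

/-- the normalising factor -/
noncomputable def XX (T : ℝ) : ℝ := T * Real.log T / (2 * Real.pi)

lemma of_delta {T P m E : ℝ} (hT : 1 < T) (h : |hw T 1 * P - m| ≤ E * T) :
    |P - m / T * XX T| ≤ E * XX T := by
  have hL : 0 < Real.log T := Real.log_pos hT
  have hpi := Real.pi_pos
  have hT0 : 0 < T := by linarith
  have e : P - m / T * XX T = (hw T 1 * P - m) * (Real.log T / (2 * Real.pi)) := by
    unfold XX hw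
    field_simp
  rw [e, abs_mul, abs_of_pos (show 0 < Real.log T / (2 * Real.pi) by positivity)]
  calc |hw T 1 * P - m| * (Real.log T / (2 * Real.pi)) ≤
      (E * T) * (Real.log T / (2 * Real.pi)) := mul_le_mul_of_nonneg_right h (by positivity)
    _ = E * XX T := by unfold XX; ring

/-- basic facts for large `T` -/
lemma big (B : ℝ) : ∃ T0 : ℝ, 60 ≤ T0 ∧ ∀ T : ℝ, T0 ≤ T → Real.exp B ≤ Real.log T ∧
    10 ≤ Real.log T ∧ (∀ s ∈ Zs T, hw T 1 ≤ s.im) := by
  obtain ⟨δ, hδ, hlow⟩ := low_ord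
  have hpi := Real.pi_pos
  have hev : ∀ᶠ T : ℝ in atTop, Real.exp B ≤ Real.log T ∧ 10 ≤ Real.log T ∧
      2 * Real.pi / δ ≤ Real.log T := by
    exact (Real.tendsto_log_atTop.eventually_ge_atTop _).and
      ((Real.tendsto_log_atTop.eventually_ge_atTop _).and
        (Real.tendsto_log_atTop.eventually_ge_atTop _))
  obtain ⟨T1, hT1⟩ := hev.exists_forall_of_atTop
  refine ⟨max T1 60, le_max_right _ _, fun T hT => ?_⟩
  obtain ⟨h1, h2, h3⟩ := hT1 T ((le_max_left _ _).trans hT)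
  refine ⟨h1, h2, fun s hs => le_trans ?_ (hlow T s hs)⟩
  unfold hw
  rw [div_le_iff₀ (by linarith)]
  rw [div_le_iff₀ hδ] at h3
  linarith

/-- **Windows at all distances.** -/
theorem far (B : ℝ) (hB : 1 ≤ B) : ∃ C T0 : ℝ, 0 < C ∧ 60 ≤ T0 ∧ ∀ T : ℝ, T0 ≤ T →
    ∀ α β : ℝ, 0 ≤ α → α ≤ β → (β - α) * Real.log (β - α) ≤ B * Real.log T → hw T β ≤ T →
    |PN T (hw T α) (hw T β) - (β - α) * (1 - hw T α / T) * XX T| ≤
      C * Real.sqrt (1 + Real.log (1 + (β - α))) * XX T := by
  obtain ⟨C, T1, hC, hT1, h⟩ := corr_far (2 * B + 2) (by linarith)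
  obtain ⟨T2, hT2, hbig⟩ := big B
  have hpi := Real.pi_gt_three
  have hpi' := Real.pi_lt_d2
  refine ⟨2 * C + 10, max T1 T2, by linarith, hT2.trans (le_max_right _ _),
    fun T hT α β hα hαβ hc hβT => ?_⟩
  obtain ⟨hTb, hL10, hlow⟩ := hbig T ((le_max_right _ _).trans hT)
  have hTT1 : T1 ≤ T := (le_max_left _ _).trans hT
  have hT60 : 60 ≤ T := hT2.trans ((le_max_right _ _).trans hT)
  have hL0 : 0 < Real.log T := by linarith
  have hLT : Real.log T ≤ T := (Real.log_le_sub_one_of_pos (by linarith)).trans (by linarith)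
  obtain ⟨a, ha⟩ : ∃ a : ℝ, a = β - α := ⟨_, rfl⟩
  rw [← ha] at hc ⊢
  have ha0 : 0 ≤ a := by linarith
  have haL := small_of_cond hB hTb hc
  obtain ⟨x, hx⟩ : ∃ x : ℝ, x = hw T α := ⟨_, rfl⟩
  obtain ⟨z, hz⟩ : ∃ z : ℝ, z = hw T β := ⟨_, rfl⟩
  obtain ⟨δ, hδ⟩ : ∃ δ : ℝ, δ = hw T 1 := ⟨_, rfl⟩
  have hx0 : 0 ≤ x := by rw [hx]; unfold hw; positivity
  have hδ0 : 0 ≤ δ := by rw [hδ]; unfold hw; positivity
  have hδ1 : δ ≤ 1 := by
    rw [hδ]; unfold hw
    rw [div_le_iff₀ hL0]; linarith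
  have hzx : z - x = hw T a := by
    rw [hz, hx, ha]; unfold hw; ring
  have hzx0 : 0 ≤ z - x := by rw [hzx]; unfold hw; positivity
  have hzx7 : z - x ≤ 7 := by
    rw [hzx]; unfold hw
    rw [div_le_iff₀ hL0]
    nlinarith
  rw [← hx, ← hz]
  rw [← hz] at hβT
  have hM : 0 ≤ Real.log (1 + a) := Real.log_nonneg (by linarith)
  obtain ⟨σ, hσ⟩ : ∃ σ : ℝ, σ = Real.sqrt (1 + Real.log (1 + a)) := ⟨_, rfl⟩
  have hσ1 : 1 ≤ σ := by
    rw [hσ, show (1 : ℝ) = Real.sqrt 1 from Real.sqrt_one.symm]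
    refine Real.sqrt_le_sqrt ?_
    rw [Real.sqrt_one]; linarith
  rw [← hσ]
  have key : |hw T 1 * PN T x z - a * (T - x)| ≤ (2 * C + 10) * σ * T := by
    rw [← hδ, abs_le]
    constructor
    · -- lower bound
      have hP := PN_nonneg T x z
      have hδP : 0 ≤ δ * PN T x z := mul_nonneg hδ0 hP
      have hbig : 10 * T ≤ (2 * C + 10) * σ * T := by
        have h1 : 10 * 1 ≤ (2 * C + 10) * σ := mul_le_mul (by linarith) hσ1 (by norm_num) (by linarith)
        nlinarith
      rcases lt_or_ge a 1 with h1 | h1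
      · have h2 : a * (T - x) ≤ T := by nlinarith
        linarith
      rcases lt_or_ge T (z + δ) with h2 | h2
      · have h3 : a * (T - x) ≤ 8 * T := by
          have : T - x ≤ 8 := by linarith
          nlinarith
        linarith
      · have hδz : δ ≤ z - x := by
          rw [hzx, hδ]; unfold hw
          apply div_le_div_of_nonneg_right _ hL0.le
          nlinarith
        have h3 := lower (T := T) (x := x) (z := z) hx0 hδ0 hδz h2
        have e1 : z - x - δ = hw T (a - 1) := by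
          rw [hzx, hδ]; unfold hw; ring
        have hc1 : (a - 1) * Real.log (a - 1) ≤ (2 * B + 2) * Real.log T :=
          cond_mono (by linarith) (show a - 1 ≤ a by linarith) (by positivity)
            (hc.trans (mul_le_mul_of_nonneg_right (by linarith) hL0.le))
        have h4 := (abs_le.1 (h T hTT1 (a - 1) (by linarith) hc1 (x + δ) (T - z - δ)
          (by linarith) (by linarith) (by linarith))).1
        rw [e1, hδ] at h3
        rw [← hδ] at h3 h4
        have h5 : Real.sqrt (1 + Real.log (1 + (a - 1))) ≤ σ := by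
          rw [hσ]
          apply Real.sqrt_le_sqrt
          have : Real.log (1 + (a - 1)) ≤ Real.log (1 + a) :=
            Real.log_le_log (by linarith) (by linarith)
          linarith
        have h6 : C * T * Real.sqrt (1 + Real.log (1 + (a - 1))) ≤ C * T * σ :=
          mul_le_mul_of_nonneg_left h5 (by positivity)
        have h7 : a * (T - x) - 9 * T ≤ (a - 1) * (T - z - δ) := by
          have e2 : (a - 1) * (T - z - δ) = a * (T - x) - a * (z - x + δ) - (T - z - δ) := by ring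
          have h8 : a * (z - x + δ) ≤ 8 * T := by nlinarith
          have h9 : 0 ≤ z := by linarith
          rw [e2]
          nlinarith
        have h10 : C * T * σ + 9 * T ≤ (2 * C + 10) * σ * T := by
          have h11 : 9 * T ≤ 9 * σ * T := by nlinarith
          have h12 : 0 ≤ C * σ * T := by positivity
          nlinarith
        linarith
    · -- upper bound
      have h3 := upper (T := T) (x := x) (z := z) (δ := δ) (by linarith) (by linarith) hδ0
        (by rw [hδ]; exact hlow)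
      have e1 : z - x + δ = hw T (a + 1) := by
        rw [hzx, hδ]; unfold hw; ring
      have h4 := (abs_le.1 (h T hTT1 (a + 1) (by linarith) (cond_succ hB hTb ha0 hc) x (T - x)
        hx0 (by linarith) (by linarith))).2
      rw [e1, hδ] at h3
      rw [← hδ] at h3 h4
      have h5 : Real.sqrt (1 + Real.log (1 + (a + 1))) ≤ 2 * σ := by
        rw [hσ]
        rw [show (2 : ℝ) = Real.sqrt 4 by
          rw [show (4 : ℝ) = 2 ^ 2 by norm_num]; exact (Real.sqrt_sq (by norm_num)).symm]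
        rw [← Real.sqrt_mul (by norm_num)]
        apply Real.sqrt_le_sqrt
        have : Real.log (1 + (a + 1)) ≤ Real.log 2 + Real.log (1 + a) := by
          rw [← Real.log_mul (by norm_num) (by linarith)]
          exact Real.log_le_log (by linarith) (by linarith)
        have hl2' : Real.log 2 < 1 := by have := Real.log_two_lt_d9; linarith
        linarith
      have h6 : C * T * Real.sqrt (1 + Real.log (1 + (a + 1))) ≤ C * T * (2 * σ) :=
        mul_le_mul_of_nonneg_left h5 (by positivity)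
      have h7 : (a + 1) * (T - x) ≤ a * (T - x) + T := by nlinarith
      have h8 : T ≤ 10 * σ * T := by nlinarith
      nlinarith
  have h1 := of_delta (by linarith) key
  have e : a * (T - x) / T = a * (1 - x / T) := by
    field_simp
  rw [e] at h1
  exact h1

/-- windows at a bounded distance, `α ≥ 1` -/
lemma near_one (B : ℝ) (hB : 1 ≤ B) : ∃ C T0 : ℝ, 0 < C ∧ 60 ≤ T0 ∧ ∀ T : ℝ, T0 ≤ T →
    ∀ α β : ℝ, 1 ≤ α → α ≤ β → β * Real.log β ≤ B * Real.log T →
    |PN T (hw T α) (hw T β) - (β - α) * XX T| ≤ C * XX T := by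
  obtain ⟨C, T1, hC, hT1, h⟩ := corr_near (2 * B + 2) (by linarith)
  obtain ⟨T2, hT2, hbig⟩ := big B
  have hpi := Real.pi_gt_three
  have hpi' := Real.pi_lt_d2
  refine ⟨C + 20, max T1 T2, by linarith, hT2.trans (le_max_right _ _),
    fun T hT α β hα hαβ hc => ?_⟩
  obtain ⟨hTb, hL10, hlow⟩ := hbig T ((le_max_right _ _).trans hT)
  have hTT1 : T1 ≤ T := (le_max_left _ _).trans hT
  have hT60 : 60 ≤ T := hT2.trans ((le_max_right _ _).trans hT)
  have hL0 : 0 < Real.log T := by linarith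
  have hLT : Real.log T ≤ T := (Real.log_le_sub_one_of_pos (by linarith)).trans (by linarith)
  have hβL := small_of_cond hB hTb hc
  obtain ⟨a, ha⟩ : ∃ a : ℝ, a = β - α := ⟨_, rfl⟩
  rw [← ha]
  have ha0 : 0 ≤ a := by linarith
  obtain ⟨x, hx⟩ : ∃ x : ℝ, x = hw T α := ⟨_, rfl⟩
  obtain ⟨z, hz⟩ : ∃ z : ℝ, z = hw T β := ⟨_, rfl⟩
  obtain ⟨δ, hδ⟩ : ∃ δ : ℝ, δ = hw T 1 := ⟨_, rfl⟩
  have hx0 : 0 ≤ x := by rw [hx]; unfold hw; positivity
  have hδ0 : 0 ≤ δ := by rw [hδ]; unfold hw; positivity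
  have hδ1 : δ ≤ 1 := by
    rw [hδ]; unfold hw
    rw [div_le_iff₀ hL0]; linarith
  have hzx : z - x = hw T a := by
    rw [hz, hx, ha]; unfold hw; ring
  have hzx0 : 0 ≤ z - x := by rw [hzx]; unfold hw; positivity
  have hz7 : z ≤ 7 := by
    rw [hz]; unfold hw
    rw [div_le_iff₀ hL0]
    nlinarith
  rw [← hx, ← hz]
  have key : |hw T 1 * PN T x z - a * T| ≤ (C + 20) * T := by
    rw [← hδ, abs_le]
    constructor
    · have hP := PN_nonneg T x z
      have hδP : 0 ≤ δ * PN T x z := mul_nonneg hδ0 hP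
      rcases lt_or_ge a 1 with h1 | h1
      · have h2 : a * T ≤ T := by nlinarith
        nlinarith
      · have hδz : δ ≤ z - x := by
          rw [hzx, hδ]; unfold hw
          apply div_le_div_of_nonneg_right _ hL0.le
          nlinarith
        have h3 := lower (T := T) (x := x) (z := z) hx0 hδ0 hδz (by linarith)
        have e1 : z - x - δ = hw T (a - 1) := by
          rw [hzx, hδ]; unfold hw; ring
        have e2 : x + δ = hw T (α + 1) := by
          rw [hx, hδ, ← hw_add]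
        have hc1 : (α + 1 + (a - 1)) * Real.log (α + 1 + (a - 1)) ≤ (2 * B + 2) * Real.log T := by
          have e3 : α + 1 + (a - 1) = β := by rw [ha]; ring
          rw [e3]
          exact hc.trans (mul_le_mul_of_nonneg_right (by linarith) hL0.le)
        have h4 := (abs_le.1 (h T hTT1 (α + 1) (a - 1) (by linarith) (by linarith) hc1 (T - z - δ)
          (by linarith) (by rw [← e2]; linarith))).1
        rw [← e2, ← e1, ← hδ] at h4
        have h7 : a * T - 19 * T ≤ (a - 1) * (T - z - δ) := by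
          have e4 : (a - 1) * (T - z - δ) = a * T - a * (z + δ) - (T - z - δ) := by ring
          have h8 : a * (z + δ) ≤ 8 * T := by nlinarith
          rw [e4]
          linarith
        linarith
    · have h3 := upper (T := T) (x := x) (z := z) (δ := δ) (by linarith) (by linarith) hδ0
        (by rw [hδ]; exact hlow)
      have e1 : z - x + δ = hw T (a + 1) := by
        rw [hzx, hδ]; unfold hw; ring
      have hc1 : (α + (a + 1)) * Real.log (α + (a + 1)) ≤ (2 * B + 2) * Real.log T := by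
        have e3 : α + (a + 1) = β + 1 := by rw [ha]; ring
        rw [e3]
        exact cond_succ hB hTb (by linarith) hc
      have h4 := (abs_le.1 (h T hTT1 α (a + 1) hα (by linarith) hc1 (T - x)
        (by linarith) (by rw [← hx]; linarith))).2
      rw [← hx, ← e1, ← hδ] at h4
      have h7 : (a + 1) * (T - x) ≤ a * T + T := by nlinarith
      nlinarith
  have h1 := of_delta (by linarith) key
  have e : a * T / T = a := by
    field_simp
  rw [e] at h1
  exact h1

/-- **Windows at a bounded distance.** -/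
theorem near (B : ℝ) (hB : 1 ≤ B) : ∃ C T0 : ℝ, 0 < C ∧ 60 ≤ T0 ∧ ∀ T : ℝ, T0 ≤ T →
    ∀ α β : ℝ, 0 ≤ α → α ≤ β → β * Real.log β ≤ B * Real.log T →
    |PN T (hw T α) (hw T β) - (β - α) * XX T| ≤ C * XX T := by
  obtain ⟨C1, T1, hC1, hT1, h1⟩ := near_one B hB
  obtain ⟨C2, T2, hC2, hT2, h2⟩ := far B hB
  have hpi := Real.pi_gt_three
  have hpi' := Real.pi_lt_d2
  obtain ⟨T3, hT3, hbig⟩ := big B
  refine ⟨C1 + (2 * C2 + 1) + 2, max (max T1 T2) T3, by linarith, hT3.trans (le_max_right _ _),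
    fun T hT α β hα hαβ hc => ?_⟩
  have hTT1 : T1 ≤ T := ((le_max_left _ _).trans (le_max_left _ _)).trans hT
  have hTT2 : T2 ≤ T := ((le_max_right _ _).trans (le_max_left _ _)).trans hT
  obtain ⟨hTb, hL10, -⟩ := hbig T ((le_max_right _ _).trans hT)
  have hT60 : 60 ≤ T := hT1.trans hTT1
  have hL0 : 0 < Real.log T := by linarith
  have hX : 0 < XX T := by unfold XX; positivity
  rcases le_or_gt 1 α with h | h
  · have h3 := h1 T hTT1 α β h hαβ hc
    refine h3.trans ?_
    exact mul_le_mul_of_nonneg_right (by linarith) hX.le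
  -- `α < 1`
  have hm : ∀ a b : ℝ, a ≤ b → hw T a ≤ hw T b := by
    intro a b hab
    unfold hw
    apply div_le_div_of_nonneg_right _ hL0.le
    nlinarith
  have h01 : PN T (hw T 0) (hw T 1) ≤ (2 * C2 + 1) * XX T := by
    have h3 := (abs_le.1 (h2 T hTT2 0 1 le_rfl zero_le_one (by simp; positivity) (by
      unfold hw
      rw [div_le_iff₀ hL0]
      nlinarith))).2
    have e0 : hw T 0 = 0 := by unfold hw; simp
    rw [e0] at h3 ⊢
    have h4 : Real.sqrt (1 + Real.log (1 + (1 - 0))) ≤ 2 := by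
      rw [Real.sqrt_le_left (by norm_num)]
      have hl2' : Real.log 2 < 1 := by have := Real.log_two_lt_d9; linarith
      rw [show (1 : ℝ) + (1 - 0) = 2 by norm_num]
      linarith
    have h5 : C2 * Real.sqrt (1 + Real.log (1 + (1 - 0))) * XX T ≤ C2 * 2 * XX T :=
      mul_le_mul_of_nonneg_right (mul_le_mul_of_nonneg_left h4 hC2.le) hX.le
    simp only [sub_zero, zero_div, mul_one, one_mul] at h3
    simp only [sub_zero] at h5
    linarith
  rcases le_or_gt β 1 with h3 | h3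
  · have h4 : PN T (hw T α) (hw T β) ≤ PN T (hw T 0) (hw T 1) :=
      PN_mono (hm _ _ hα) (hm _ _ h3)
    have h5 := PN_nonneg T (hw T α) (hw T β)
    have h6 : (β - α) * XX T ≤ 1 * XX T := mul_le_mul_of_nonneg_right (by linarith) hX.le
    have h7 : 0 ≤ (β - α) * XX T := mul_nonneg (by linarith) hX.le
    have h8 : 0 ≤ C1 * XX T := by positivity
    rw [abs_le]
    constructor <;> nlinarith
  · have h4 := abs_le.1 (h1 T hTT1 1 β le_rfl h3.le hc)
    have h5 : PN T (hw T α) (hw T β) ≤ PN T (hw T α) (hw T 1) + PN T (hw T 1) (hw T β) :=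
      PN_split _ _ _ _
    have h6 : PN T (hw T α) (hw T 1) ≤ PN T (hw T 0) (hw T 1) := PN_mono (hm _ _ hα) le_rfl
    have h7 : PN T (hw T 1) (hw T β) ≤ PN T (hw T α) (hw T β) := PN_mono (hm _ _ h.le) le_rfl
    have h8 : 0 ≤ α * XX T := by positivity
    have h9 : α * XX T ≤ 1 * XX T := mul_le_mul_of_nonneg_right h.le hX.le
    have h10 : 0 ≤ C2 * XX T := by positivity
    rw [abs_le]
    constructor <;> nlinarith [h4.1, h4.2]

end Pool.Agent.Q212.PW
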