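import Pool.Agent.Q212.PW.Cnt

/-! # Pairs of zeros in long windows: the number variance over `[0, T]` -/

set_option autoImplicit false

open MeasureTheory Set Filter Topology

namespace Pool.Agent.Q212.PW

open SG (NZ)

/-- the length of a window of `a` mean gaps -/
noncomputable def hw (T a : ℝ) : ℝ := 2 * Real.pi * a / Real.log T

lemma small_of_cond {B : ℝ} (hB : 1 ≤ B) {T : ℝ} (hT : Real.exp B ≤ Real.log T) {a : ℝ}
    (hc : a * Real.log a ≤ B * Real.log T) : a ≤ Real.log T := by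
  by_contra hcon
  push Not at hcon
  have h0 : 0 < Real.log T := (Real.exp_pos B).trans_le hT
  have h1 : B < Real.log a := by
    rw [Real.lt_log_iff_exp_lt (h0.trans hcon)]
    exact hT.trans_lt hcon
  have h2 : B * Real.log T < Real.log a * a := by
    apply mul_lt_mul'' h1 hcon (by linarith) h0.le
  linarith [mul_comm a (Real.log a)]

lemma quad_of_cond {B : ℝ} (hB : 1 ≤ B) {T : ℝ} (hT : Real.exp B ≤ Real.log T)
    (hT3 : 3 ≤ Real.log T) {a : ℝ} (ha : 0 ≤ a) (hc : a * Real.log a ≤ B * Real.log T) :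
    (a / Real.log T) ^ 2 * (1 + Real.log (1 + a)) ≤ 3 * B := by
  have h0 : 0 < Real.log T := by linarith
  have h1 := small_of_cond hB hT hc
  have h2 : a / Real.log T ≤ 1 := (div_le_one h0).2 h1
  have h3 : 0 ≤ a / Real.log T := by positivity
  rcases le_or_gt a 3 with h4 | h4
  · have h5 : (a / Real.log T) ^ 2 ≤ 1 := pow_le_one₀ h3 h2
    have h6 : Real.log (1 + a) ≤ 2 := by
      have : Real.log (1 + a) ≤ Real.log 4 := Real.log_le_log (by linarith) (by linarith)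
      have h7 : Real.log 4 = 2 * Real.log 2 := by
        rw [show (4 : ℝ) = 2 ^ 2 by norm_num, Real.log_pow]; norm_num
      have := Real.log_two_lt_d9
      linarith
    have h7 : 0 ≤ Real.log (1 + a) := Real.log_nonneg (by linarith)
    nlinarith
  · have h5 : 1 ≤ Real.log a := by
      rw [Real.le_log_iff_exp_le (by linarith)]
      linarith [Real.exp_one_lt_d9]
    have h6 : Real.log (1 + a) ≤ 2 * Real.log a := by
      have e : 2 * Real.log a = Real.log (a ^ 2) := by rw [Real.log_pow]; norm_num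
      rw [e]
      exact Real.log_le_log (by linarith) (by nlinarith)
    have h7 : (a / Real.log T) * Real.log a ≤ B := by
      rw [div_mul_eq_mul_div, div_le_iff₀ h0]
      exact hc
    calc (a / Real.log T) ^ 2 * (1 + Real.log (1 + a)) ≤
        (a / Real.log T) ^ 2 * (3 * Real.log a) :=
          mul_le_mul_of_nonneg_left (by linarith) (sq_nonneg _)
      _ = (a / Real.log T) * (3 * ((a / Real.log T) * Real.log a)) := by ring
      _ ≤ 1 * (3 * B) := by
          apply mul_le_mul h2 (by linarith) _ zero_le_one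
          have : 0 ≤ (a / Real.log T) * Real.log a := by positivity
          linarith
      _ = 3 * B := one_mul _

/-- one dyadic block -/
lemma blk (B : ℝ) (hB : 1 ≤ B) : ∃ C T0 : ℝ, 0 < C ∧ 10 ≤ T0 ∧ ∀ T : ℝ, T0 ≤ T → ∀ k : ℕ,
    T ^ (1 / 8 : ℝ) ≤ T / 2 ^ (k + 1) → ∀ a : ℝ, 0 < a → a * Real.log a ≤ B * Real.log T →
    |(∫ t in (T / 2 ^ (k + 1))..(T / 2 ^ k), (dn (hw T a) t - a) ^ 2) -
      T / 2 ^ (k + 1) / Real.pi ^ 2 * Real.log (1 + a)| ≤
      C * (T / 2 ^ (k + 1)) * ((k : ℝ) + 2) ^ 2 := by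
  obtain ⟨C₀, T1, hC₀, hT1, hnv⟩ := Pool.Agent.TH850.UV.nv2 B hB
  have hpi := Real.pi_gt_three
  have hl2 : 0 < Real.log 2 := Real.log_pos (by norm_num)
  have hl2' : Real.log 2 < 1 := by have := Real.log_two_lt_d9; linarith
  have hev : ∀ᶠ T : ℝ in atTop, T1 ≤ T ^ (1 / 8 : ℝ) ∧ Real.exp B ≤ Real.log T ∧
      3 ≤ Real.log T := by
    refine ((tendsto_rpow_atTop (by norm_num : (0 : ℝ) < 1 / 8)).eventually_ge_atTop T1).and
      ((Real.tendsto_log_atTop.eventually_ge_atTop _).and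
        (Real.tendsto_log_atTop.eventually_ge_atTop _))
  obtain ⟨T2, hT2⟩ := hev.exists_forall_of_atTop
  refine ⟨2 * C₀ + 4 + 6 * B, max T2 10, by linarith, le_max_right _ _,
    fun T hT k hk a ha hcond => ?_⟩
  obtain ⟨hTa, hTb, hTc⟩ := hT2 T ((le_max_left _ _).trans hT)
  have hT10 : 10 ≤ T := (le_max_right _ _).trans hT
  have hT0 : 0 < T := by linarith
  obtain ⟨L, hL⟩ : ∃ L : ℝ, L = Real.log T := ⟨_, rfl⟩
  rw [← hL] at hTb hTc hcond
  have hL0 : 0 < L := by linarith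
  obtain ⟨S, hS⟩ : ∃ S : ℝ, S = T / 2 ^ (k + 1) := ⟨_, rfl⟩
  have hp : (0 : ℝ) < 2 ^ (k + 1) := by positivity
  have hTT : T / 2 ^ k = 2 * S := by
    rw [hS, pow_succ]; field_simp
  rw [← hS] at hk
  rw [hTT, ← hS]
  have hST1 : T1 ≤ S := hTa.trans hk
  have hS0 : 0 < S := by linarith
  obtain ⟨l, hl⟩ : ∃ l : ℝ, l = Real.log S := ⟨_, rfl⟩
  have hl1 : l = L - ((k : ℝ) + 1) * Real.log 2 := by
    rw [hl, hS, Real.log_div hT0.ne' hp.ne', Real.log_pow, hL]
    push_cast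
    ring
  have hl2L : L / 8 ≤ l := by
    have h1 := Real.log_le_log (Real.rpow_pos_of_pos hT0 _) hk
    rw [Real.log_rpow hT0, ← hL, ← hl] at h1
    linarith
  have hl0 : 0 < l := by linarith
  have hlL : l ≤ L := by
    rw [hl1]
    have : 0 ≤ ((k : ℝ) + 1) * Real.log 2 := by positivity
    linarith
  obtain ⟨b, hb⟩ : ∃ b : ℝ, b = a * l / L := ⟨_, rfl⟩
  have hb0 : 0 < b := by rw [hb]; positivity
  have hba : b ≤ a := by
    rw [hb, div_le_iff₀ hL0]
    exact mul_le_mul_of_nonneg_left hlL ha.le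
  have hba8 : a ≤ 8 * b := by
    rw [hb]
    have : a * L ≤ 8 * (a * l) := by nlinarith
    rw [← mul_div_assoc, le_div_iff₀ hL0]
    linarith
  have hcb : b * Real.log b ≤ B * Real.log S := by
    rw [← hl]
    rcases le_or_gt b 1 with h1 | h1
    · have h2 : Real.log b ≤ 0 := Real.log_nonpos hb0.le h1
      have h3 : b * Real.log b ≤ 0 := mul_nonpos_of_nonneg_of_nonpos hb0.le h2
      have h4 : 0 ≤ B * l := by positivity
      linarith
    · have h2 : Real.log b ≤ Real.log a := Real.log_le_log hb0 hba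
      calc b * Real.log b ≤ b * Real.log a := mul_le_mul_of_nonneg_left h2 hb0.le
        _ = (a * Real.log a) * (l / L) := by rw [hb]; ring
        _ ≤ (B * L) * (l / L) := mul_le_mul_of_nonneg_right hcond (by positivity)
        _ = B * l := by field_simp
  obtain ⟨-, h4⟩ := hnv S hST1 b hb0 hcb
  have hh : 2 * Real.pi * b / Real.log S = hw T a := by
    unfold hw
    rw [hb, ← hl, ← hL]; field_simp
  have hh0 : 0 ≤ hw T a := by
    unfold hw
    rw [← hL]; positivity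
  obtain ⟨P, hP⟩ : ∃ P : ℝ, P = ∫ t in S..(2 * S), (dn (hw T a) t - b) ^ 2 := ⟨_, rfl⟩
  have e1 : ∫ t in S..(2 * S),
      ((Pool.Agent.TH850.UV.cnt t (2 * Real.pi * b / Real.log S) : ℝ) - b) ^ 2 = P := by
    rw [hP]
    refine intervalIntegral.integral_congr fun t ht => ?_
    rw [uIcc_of_le (by linarith)] at ht
    rw [hh, cnt_NZ (by linarith [ht.1]), if_pos hh0]
    rfl
  rw [e1] at h4
  have hPa := abs_le.1 h4
  -- the mean
  obtain ⟨M, hM⟩ : ∃ M : ℝ, M = 1 + Real.log (1 + a) := ⟨_, rfl⟩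
  have hla : 0 ≤ Real.log (1 + a) := Real.log_nonneg (by linarith)
  have hM1 : 1 ≤ M := by linarith
  obtain ⟨η, hη⟩ : ∃ η : ℝ, η = a - b := ⟨_, rfl⟩
  have hη0 : 0 ≤ η := by linarith
  have hη1 : η ≤ (a / L) * ((k : ℝ) + 1) := by
    rw [hη, hb, hl1]
    have e : a - a * (L - ((k : ℝ) + 1) * Real.log 2) / L =
        (a / L) * (((k : ℝ) + 1) * Real.log 2) := by field_simp; ring
    rw [e]
    apply mul_le_mul_of_nonneg_left _ (by positivity)
    nlinarith [show (0 : ℝ) ≤ (k : ℝ) from Nat.cast_nonneg k]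
  have hηM : η ^ 2 * M ≤ 3 * B * ((k : ℝ) + 1) ^ 2 := by
    have h1 : η ^ 2 ≤ ((a / L) * ((k : ℝ) + 1)) ^ 2 := pow_le_pow_left₀ hη0 hη1 2
    have h2 := quad_of_cond (T := T) hB (by rw [← hL]; exact hTb) (by rw [← hL]; exact hTc) ha.le
      (by rw [← hL]; exact hcond)
    rw [← hL, ← hM] at h2
    calc η ^ 2 * M ≤ ((a / L) * ((k : ℝ) + 1)) ^ 2 * M := mul_le_mul_of_nonneg_right h1 (by linarith)
      _ = ((a / L) ^ 2 * M) * ((k : ℝ) + 1) ^ 2 := by ring
      _ ≤ 3 * B * ((k : ℝ) + 1) ^ 2 := mul_le_mul_of_nonneg_right h2 (sq_nonneg _)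
  have hηη : η ^ 2 ≤ 3 * B * ((k : ℝ) + 1) ^ 2 := by
    have : η ^ 2 * 1 ≤ η ^ 2 * M := mul_le_mul_of_nonneg_left hM1 (sq_nonneg _)
    linarith
  have hlab : Real.log (1 + b) ≤ Real.log (1 + a) := Real.log_le_log (by linarith) (by linarith)
  have hlab' : Real.log (1 + a) - Real.log (1 + b) ≤ 3 := by
    have h1 : Real.log (1 + a) ≤ Real.log (8 * (1 + b)) :=
      Real.log_le_log (by linarith) (by linarith)
    rw [Real.log_mul (by norm_num) (by linarith)] at h1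
    have h2 : Real.log 8 = 3 * Real.log 2 := by
      rw [show (8 : ℝ) = 2 ^ 3 by norm_num, Real.log_pow]; norm_num
    linarith
  have hlb : 0 ≤ Real.log (1 + b) := Real.log_nonneg (by linarith)
  have hpi2 : 1 ≤ Real.pi ^ 2 := by nlinarith
  have hSpi : S / Real.pi ^ 2 ≤ S := div_le_self hS0.le hpi2
  have hSpi0 : 0 ≤ S / Real.pi ^ 2 := by positivity
  have hPle : P ≤ S * (1 + C₀) * M := by
    have h1 : S / Real.pi ^ 2 * Real.log (1 + b) ≤ S * Real.log (1 + a) :=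
      mul_le_mul hSpi hlab hlb hS0.le
    have h2 : P ≤ S * Real.log (1 + a) + C₀ * S := by linarith [hPa.2]
    have h3 : C₀ * S ≤ C₀ * S * M := le_mul_of_one_le_right (by positivity) hM1
    rw [hM] at h3 ⊢
    nlinarith
  have i1 : IntervalIntegrable (fun t => (dn (hw T a) t - b) ^ 2) volume S (2 * S) := by
    simpa using ii_sq (hw T a) 0 b S (2 * S)
  have i2 : IntervalIntegrable (fun t => (dn (hw T a) t - a) ^ 2) volume S (2 * S) := by
    simpa using ii_sq (hw T a) 0 a S (2 * S)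
  have i3 : IntervalIntegrable (fun t => (dn (hw T a) t - b) ^ 2 * (1 / M) + (η ^ 2 * M + η ^ 2))
      volume S (2 * S) := (i1.mul_const _).add (by simp)
  have e3 : ∫ t in S..(2 * S), ((dn (hw T a) t - b) ^ 2 * (1 / M) + (η ^ 2 * M + η ^ 2)) =
      P * (1 / M) + (η ^ 2 * M + η ^ 2) * S := by
    rw [intervalIntegral.integral_add (i1.mul_const _) (by simp),
      intervalIntegral.integral_mul_const, ← hP, intervalIntegral.integral_const, smul_eq_mul]
    ring
  have hpt : ∀ t, |(dn (hw T a) t - a) ^ 2 - (dn (hw T a) t - b) ^ 2| ≤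
      (dn (hw T a) t - b) ^ 2 * (1 / M) + (η ^ 2 * M + η ^ 2) := by
    intro t
    obtain ⟨y, hy⟩ : ∃ y : ℝ, y = dn (hw T a) t - b := ⟨_, rfl⟩
    have e4 : (dn (hw T a) t - a) ^ 2 - (dn (hw T a) t - b) ^ 2 = -(2 * η * y) + η ^ 2 := by
      rw [hη, hy]; ring
    rw [e4, ← hy]
    have h5 : |2 * η * y| ≤ y ^ 2 * (1 / M) + η ^ 2 * M := by
      rw [abs_mul, abs_of_nonneg (show 0 ≤ 2 * η by linarith), ← sq_abs y]
      have h6 : 0 ≤ (|y| * (1 / M) - η) ^ 2 * M := by positivity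
      have h7 : (|y| * (1 / M) - η) ^ 2 * M = |y| ^ 2 * (1 / M) - 2 * η * |y| + η ^ 2 * M := by
        have hM0 : M ≠ 0 := by linarith
        field_simp
        ring
      linarith
    calc |-(2 * η * y) + η ^ 2| ≤ |-(2 * η * y)| + |η ^ 2| := abs_add_le _ _
      _ = |2 * η * y| + η ^ 2 := by rw [abs_neg, abs_of_nonneg (sq_nonneg η)]
      _ ≤ _ := by linarith
  have hcmp : |(∫ t in S..(2 * S), (dn (hw T a) t - a) ^ 2) - P| ≤
      P * (1 / M) + (η ^ 2 * M + η ^ 2) * S := by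
    rw [← e3, hP, ← intervalIntegral.integral_sub i2 i1]
    refine (intervalIntegral.abs_integral_le_integral_abs (by linarith)).trans ?_
    exact intervalIntegral.integral_mono_on (by linarith) (i2.sub i1).abs i3 fun t _ => hpt t
  have hk0 : (0 : ℝ) ≤ (k : ℝ) := Nat.cast_nonneg k
  have hPM : P * (1 / M) ≤ S * (1 + C₀) := by
    rw [mul_one_div, div_le_iff₀ (by linarith)]
    exact hPle
  have hlogm : |S / Real.pi ^ 2 * Real.log (1 + b) - S / Real.pi ^ 2 * Real.log (1 + a)| ≤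
      3 * S := by
    rw [← mul_sub, abs_mul, abs_of_nonneg hSpi0]
    have h1 : |Real.log (1 + b) - Real.log (1 + a)| ≤ 3 := by
      rw [abs_le]; constructor <;> linarith
    calc S / Real.pi ^ 2 * |Real.log (1 + b) - Real.log (1 + a)| ≤ S * 3 :=
          mul_le_mul hSpi h1 (abs_nonneg _) hS0.le
      _ = 3 * S := mul_comm _ _
  have c1 := abs_le.1 hcmp
  have c2 := abs_le.1 hlogm
  have hfin : S * (1 + C₀) + (η ^ 2 * M + η ^ 2) * S + C₀ * S + 3 * S ≤
      (2 * C₀ + 4 + 6 * B) * S * ((k : ℝ) + 2) ^ 2 := by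
    have h1 : (η ^ 2 * M + η ^ 2) * S ≤ (6 * B * ((k : ℝ) + 1) ^ 2) * S :=
      mul_le_mul_of_nonneg_right (by linarith) hS0.le
    have h2 : ((k : ℝ) + 1) ^ 2 ≤ ((k : ℝ) + 2) ^ 2 := pow_le_pow_left₀ (by linarith) (by linarith) 2
    have h3 : 1 ≤ ((k : ℝ) + 2) ^ 2 := by nlinarith
    have h4 : (6 * B * ((k : ℝ) + 1) ^ 2) * S ≤ (6 * B * ((k : ℝ) + 2) ^ 2) * S :=
      mul_le_mul_of_nonneg_right (mul_le_mul_of_nonneg_left h2 (by linarith)) hS0.le
    have h5 : (2 * C₀ + 4) * S * 1 ≤ (2 * C₀ + 4) * S * ((k : ℝ) + 2) ^ 2 :=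
      mul_le_mul_of_nonneg_left h3 (by positivity)
    nlinarith
  rw [abs_le]
  constructor <;> linarith [hPa.1, hPa.2, c1.1, c1.2, c2.1, c2.2]

/-- all dyadic blocks -/
lemma blks (B : ℝ) (hB : 1 ≤ B) : ∃ C T0 : ℝ, 0 < C ∧ 10 ≤ T0 ∧ ∀ T : ℝ, T0 ≤ T → ∀ k : ℕ,
    T ^ (1 / 8 : ℝ) ≤ T / 2 ^ k → ∀ a : ℝ, 0 < a → a * Real.log a ≤ B * Real.log T →
    |(∫ t in (T / 2 ^ k)..T, (dn (hw T a) t - a) ^ 2) -
      (T - T / 2 ^ k) / Real.pi ^ 2 * Real.log (1 + a)| ≤
      C * T * (11 - ((k : ℝ) ^ 2 + 6 * k + 11) / 2 ^ k) := by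
  obtain ⟨C, T0, hC, hT0, h⟩ := blk B hB
  refine ⟨C, T0, hC, hT0, fun T hT k => ?_⟩
  have hTp : 0 < T := by linarith
  induction k with
  | zero =>
    intro _ a _ _
    simp
  | succ k ih =>
    intro hk a ha hcond
    have hp : (0 : ℝ) < 2 ^ k := by positivity
    have hk' : T ^ (1 / 8 : ℝ) ≤ T / 2 ^ k := by
      refine hk.trans ?_
      rw [pow_succ]
      apply div_le_div_of_nonneg_left hTp.le hp
      linarith
    have h1 := ih hk' a ha hcond
    have h2 := h T hT k hk a ha hcond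
    have i1 : ∀ x y : ℝ, IntervalIntegrable (fun t => (dn (hw T a) t - a) ^ 2) volume x y := by
      intro x y
      simpa using ii_sq (hw T a) 0 a x y
    rw [← intervalIntegral.integral_add_adjacent_intervals (i1 (T / 2 ^ (k + 1)) (T / 2 ^ k))
      (i1 (T / 2 ^ k) T)]
    have e1 : (T - T / 2 ^ (k + 1)) / Real.pi ^ 2 * Real.log (1 + a) =
        T / 2 ^ (k + 1) / Real.pi ^ 2 * Real.log (1 + a) +
        (T - T / 2 ^ k) / Real.pi ^ 2 * Real.log (1 + a) := by
      have : T / 2 ^ k = T / 2 ^ (k + 1) + T / 2 ^ (k + 1) := by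
        rw [pow_succ]; field_simp; norm_num
      rw [this]
      ring
    have e2 : C * T * (11 - (((k + 1 : ℕ) : ℝ) ^ 2 + 6 * ((k + 1 : ℕ) : ℝ) + 11) / 2 ^ (k + 1)) =
        C * T * (11 - ((k : ℝ) ^ 2 + 6 * k + 11) / 2 ^ k) +
        C * (T / 2 ^ (k + 1)) * ((k : ℝ) + 2) ^ 2 := by
      push_cast
      rw [pow_succ]
      field_simp
      ring
    rw [e1, e2]
    have a1 := abs_le.1 h1
    have a2 := abs_le.1 h2
    rw [abs_le]
    constructor <;> linarith [a1.1, a1.2, a2.1, a2.2]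

/-- **The number variance over `[0, T]`**, uniformly in the length. -/
lemma var_all (B : ℝ) (hB : 1 ≤ B) : ∃ C T0 : ℝ, 0 < C ∧ 10 ≤ T0 ∧ ∀ T : ℝ, T0 ≤ T →
    ∀ a : ℝ, 0 ≤ a → a * Real.log a ≤ B * Real.log T →
    |(∫ t in (0 : ℝ)..T, (dn (hw T a) t - a) ^ 2) - T / Real.pi ^ 2 * Real.log (1 + a)| ≤
      C * T := by
  obtain ⟨C, T1, hC, hT1, h⟩ := blks B hB
  obtain ⟨C1, hC1, hrvm⟩ := NZ_rvm
  have hpi := Real.pi_gt_three
  have hev : ∀ᶠ T : ℝ in atTop, 16 ≤ T ^ (1 / 8 : ℝ) ∧ Real.exp B ≤ Real.log T := by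
    refine ((tendsto_rpow_atTop (by norm_num : (0 : ℝ) < 1 / 8)).eventually_ge_atTop 16).and
      (Real.tendsto_log_atTop.eventually_ge_atTop _)
  obtain ⟨T2, hT2⟩ := hev.exists_forall_of_atTop
  obtain ⟨K, hK⟩ : ∃ K : ℝ, K = (1 + C1) * 9 := ⟨_, rfl⟩
  refine ⟨11 * C + 2 * (K ^ 2 + 64) + 18, max T1 T2, by positivity, hT1.trans (le_max_left _ _),
    fun T hT a ha hcond => ?_⟩
  have hTT1 : T1 ≤ T := (le_max_left _ _).trans hT
  obtain ⟨hq16, hTb⟩ := hT2 T ((le_max_right _ _).trans hT)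
  have hT0 : 0 < T := by linarith
  rcases ha.eq_or_lt with ha0 | ha0
  · rw [← ha0]
    have e : ∀ t : ℝ, (dn (hw T 0) t - 0) ^ 2 = 0 := by
      intro t
      unfold dn hw
      simp
    simp_rw [e]
    simp
    positivity
  obtain ⟨q, hq⟩ : ∃ q : ℝ, q = T ^ (1 / 8 : ℝ) := ⟨_, rfl⟩
  rw [← hq] at hq16
  have hq8 : q ^ 8 = T := by
    rw [hq, ← Real.rpow_natCast, ← Real.rpow_mul hT0.le]; norm_num
  have hq0 : 0 < q := by linarith
  have hlogq : Real.log T = 8 * Real.log q := by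
    rw [← hq8, Real.log_pow]; norm_num
  have hlq : Real.log q ≤ q := (Real.log_le_sub_one_of_pos hq0).trans (by linarith)
  have hL : Real.log T ≤ 8 * q := by linarith
  have haL := small_of_cond hB hTb hcond
  have hL0 : 0 < Real.log T := (Real.exp_pos B).trans_le hTb
  -- the last block
  have hx : 1 ≤ T / q := by
    rw [le_div_iff₀ hq0, one_mul, ← hq8]
    calc q = q ^ 1 := (pow_one q).symm
      _ ≤ q ^ 8 := pow_le_pow_right₀ (by linarith) (by norm_num)
  obtain ⟨n, hn1, hn2⟩ := exists_nat_pow_near hx (show (1 : ℝ) < 2 by norm_num)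
  have hp : (0 : ℝ) < 2 ^ n := by positivity
  have h1 : q ≤ T / 2 ^ n := by
    rw [le_div_iff₀ hp]
    rw [le_div_iff₀ hq0] at hn1
    linarith
  have h2 : T / 2 ^ n ≤ 2 * q := by
    rw [div_le_iff₀ hp]
    rw [div_lt_iff₀ hq0, pow_succ] at hn2
    linarith
  have hb := h T hTT1 n (by rw [← hq]; exact h1) a ha0 hcond
  have i1 : ∀ x y : ℝ, IntervalIntegrable (fun t => (dn (hw T a) t - a) ^ 2) volume x y := by
    intro x y
    simpa using ii_sq (hw T a) 0 a x y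
  rw [← intervalIntegral.integral_add_adjacent_intervals (i1 0 (T / 2 ^ n)) (i1 (T / 2 ^ n) T)]
  have hh0 : 0 ≤ hw T a := by unfold hw; positivity
  have hh7 : hw T a ≤ 7 := by
    unfold hw
    rw [div_le_iff₀ hL0]
    have := Real.pi_lt_d2
    nlinarith
  have hrem : ∫ t in (0 : ℝ)..(T / 2 ^ n), (dn (hw T a) t - a) ^ 2 ≤
      (T / 2 ^ n) * ((K * q ^ 2) ^ 2 + (8 * q) ^ 2) := by
    have hpos : 0 ≤ T / 2 ^ n := by positivity
    have hm := intervalIntegral.integral_mono_on hpos (i1 0 (T / 2 ^ n))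
      (intervalIntegrable_const (c := ((K * q ^ 2) ^ 2 + (8 * q) ^ 2))) (fun t ht => by
        have h3 : 0 ≤ dn (hw T a) t := dn_nonneg hh0 t
        have h4 : dn (hw T a) t ≤ K * q ^ 2 := by
          have h5 : (NZ (t + hw T a) : ℝ) ≤ NZ (2 * q + 7) := NZr_mono (by linarith [ht.2])
          have h6 := (abs_le.1 (hrvm (2 * q + 7) (by linarith))).2
          have h7 : Real.log (2 * q + 7) ≤ 2 * q + 7 :=
            (Real.log_le_sub_one_of_pos (by linarith)).trans (by linarith)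
          have h8 : (2 * q + 7) * Real.log (2 * q + 7) / (2 * Real.pi) ≤ (2 * q + 7) ^ 2 := by
            rw [div_le_iff₀ (by positivity)]
            have h9 : (2 * q + 7) * Real.log (2 * q + 7) ≤ (2 * q + 7) * (2 * q + 7) :=
              mul_le_mul_of_nonneg_left h7 (by linarith)
            nlinarith [sq_nonneg (2 * q + 7)]
          have h9 : 2 * q + 7 ≤ 3 * q := by linarith
          have h10 : (2 * q + 7) ^ 2 ≤ (3 * q) ^ 2 := pow_le_pow_left₀ (by linarith) h9 2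
          have h11 : C1 * (2 * q + 7) ≤ C1 * (9 * q ^ 2) :=
            mul_le_mul_of_nonneg_left (by nlinarith) hC1.le
          have h12 : (0 : ℝ) ≤ NZ t := Nat.cast_nonneg _
          unfold dn
          rw [hK]
          nlinarith
        have h5 : (dn (hw T a) t) ^ 2 ≤ (K * q ^ 2) ^ 2 := pow_le_pow_left₀ h3 h4 2
        have h6 : a ^ 2 ≤ (8 * q) ^ 2 := pow_le_pow_left₀ ha (haL.trans hL) 2
        have h7 : 0 ≤ dn (hw T a) t * a := mul_nonneg h3 ha
        nlinarith)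
    rw [intervalIntegral.integral_const, smul_eq_mul, sub_zero] at hm
    exact hm
  have hrem0 : 0 ≤ ∫ t in (0 : ℝ)..(T / 2 ^ n), (dn (hw T a) t - a) ^ 2 :=
    intervalIntegral.integral_nonneg (by positivity) fun t _ => sq_nonneg _
  have hq5 : q ^ 5 ≤ T := by rw [← hq8]; exact pow_le_pow_right₀ (by linarith) (by norm_num)
  have hq3 : q ^ 3 ≤ T := by rw [← hq8]; exact pow_le_pow_right₀ (by linarith) (by norm_num)
  have hq2 : q ^ 2 ≤ T := by rw [← hq8]; exact pow_le_pow_right₀ (by linarith) (by norm_num)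
  have hrem2 : (T / 2 ^ n) * ((K * q ^ 2) ^ 2 + (8 * q) ^ 2) ≤ 2 * (K ^ 2 + 64) * T := by
    calc (T / 2 ^ n) * ((K * q ^ 2) ^ 2 + (8 * q) ^ 2) ≤
        (2 * q) * ((K * q ^ 2) ^ 2 + (8 * q) ^ 2) :=
          mul_le_mul_of_nonneg_right h2 (by positivity)
      _ = 2 * K ^ 2 * q ^ 5 + 128 * q ^ 3 := by ring
      _ ≤ 2 * K ^ 2 * T + 128 * T := by
          have := mul_le_mul_of_nonneg_left hq5 (show 0 ≤ 2 * K ^ 2 by positivity)
          linarith
      _ = 2 * (K ^ 2 + 64) * T := by ring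
  have hla : 0 ≤ Real.log (1 + a) := Real.log_nonneg (by linarith)
  have hla' : Real.log (1 + a) ≤ 8 * q := by
    have := Real.log_le_sub_one_of_pos (show 0 < 1 + a by linarith)
    linarith
  have hpi2 : 1 ≤ Real.pi ^ 2 := by nlinarith
  have htail : T / 2 ^ n / Real.pi ^ 2 * Real.log (1 + a) ≤ 18 * T := by
    have h3 : T / 2 ^ n / Real.pi ^ 2 ≤ 2 * q := (div_le_self (by positivity) hpi2).trans h2
    calc T / 2 ^ n / Real.pi ^ 2 * Real.log (1 + a) ≤ (2 * q) * (8 * q) :=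
          mul_le_mul h3 hla' hla (by linarith)
      _ = 16 * q ^ 2 := by ring
      _ ≤ 18 * T := by linarith
  have htail0 : 0 ≤ T / 2 ^ n / Real.pi ^ 2 * Real.log (1 + a) := by positivity
  have e1 : (T - T / 2 ^ n) / Real.pi ^ 2 * Real.log (1 + a) =
      T / Real.pi ^ 2 * Real.log (1 + a) - T / 2 ^ n / Real.pi ^ 2 * Real.log (1 + a) := by ring
  have hb2 : C * T * (11 - ((n : ℝ) ^ 2 + 6 * n + 11) / 2 ^ n) ≤ 11 * C * T := by
    have : 0 ≤ ((n : ℝ) ^ 2 + 6 * n + 11) / 2 ^ n := by positivity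
    have h3 : 0 ≤ C * T := by positivity
    nlinarith
  have hbb := abs_le.1 (hb.trans hb2)
  rw [e1] at hbb
  rw [abs_le]
  constructor <;> linarith [hbb.1, hbb.2]

end Pool.Agent.Q212.PW
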